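import Pool.Agent.TH737.HEN.NA

/-!
# Henon maps over the rationals with many rational periodic points
-/

set_option autoImplicit false

namespace Pool.Agent.TH737.HEN

open Finset Polynomial NumberField

universe u

lemma potInt_of_monic {K : Type u} [Field K] [NumberField K] (v : FinitePlace K) (F : K[X]) (δ : K)
    (hF : F.Monic) (hc : ∀ j, v (F.coeff j) ≤ 1) (hδ : v δ ≤ 1) : PotInt v F δ := by
  obtain ⟨w, hwext⟩ := Pool.Agent.H951R3.PB.exists_ext_fin v
  have hw : ∀ x : K, w (algebraMap K (AlgebraicClosure K) x) = v x := fun x => hwext x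
  refine ⟨hδ, w, hw, F.map (algebraMap K (AlgebraicClosure K)), 1, 0, one_ne_zero, ?_, ?_, ?_⟩
  · intro j
    rw [coeff_map, hw]
    exact hc j
  · rw [leadingCoeff_map, hF.leadingCoeff, map_one, map_one]
  · simp

lemma finitePlace_intCast_le {K : Type u} [Field K] [NumberField K] (v : FinitePlace K) (n : ℤ) :
    v (n : K) ≤ 1 := by
  rcases Int.le_total 0 n with h | h
  · obtain ⟨m, rfl⟩ := Int.eq_ofNat_of_zero_le h
    simpa using finitePlace_natCast_le v m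
  · obtain ⟨m, hm⟩ := Int.eq_ofNat_of_zero_le (show 0 ≤ -n by omega)
    have : (n : K) = -((m : ℕ) : K) := by
      have h1 : n = -(m : ℤ) := by omega
      rw [h1]; push_cast; rfl
    rw [this]
    have h2 : v (-((m : ℕ) : K)) = v ((m : ℕ) : K) := v.val.map_neg _
    rw [h2]
    exact finitePlace_natCast_le v m

/-- A map with integer coefficients, `F` monic. -/
lemma potInt_int (v : FinitePlace ℚ) (F : ℤ[X]) (δ : ℤ) (hF : F.Monic) :
    PotInt v (F.map (Int.castRingHom ℚ)) (δ : ℚ) := by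
  refine potInt_of_monic v _ _ (hF.map _) (fun j => ?_) (finitePlace_intCast_le v δ)
  rw [coeff_map]
  exact finitePlace_intCast_le v _

/-- The map on integer points. -/
def stepZ (φ : ℤ → ℤ) (δ : ℤ) (P : ℤ × ℤ) : ℤ × ℤ := (P.2, φ P.2 - δ * P.1)

lemma henon_cast (F : ℤ[X]) (δ : ℤ) (P : ℤ × ℤ) :
    henon (F.map (Int.castRingHom ℚ)) (δ : ℚ) ((P.1 : ℚ), (P.2 : ℚ)) =
      (((stepZ (fun x => F.eval x) δ P).1 : ℚ), ((stepZ (fun x => F.eval x) δ P).2 : ℚ)) := by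
  have h : eval (P.2 : ℚ) (F.map (Int.castRingHom ℚ)) = ((F.eval P.2 : ℤ) : ℚ) := by
    have := eval_map_apply (f := Int.castRingHom ℚ) (p := F) P.2
    simpa using this
  simp only [henon, stepZ, h]
  push_cast
  rfl

lemma periodic_cast (F : ℤ[X]) (δ : ℤ) (P : ℤ × ℤ) (n : ℕ) (hn : 0 < n)
    (h : (stepZ (fun x => F.eval x) δ)^[n] P = P) :
    ∃ n : ℕ, 0 < n ∧ (henon (F.map (Int.castRingHom ℚ)) (δ : ℚ))^[n] ((P.1 : ℚ), (P.2 : ℚ)) =
      ((P.1 : ℚ), (P.2 : ℚ)) := by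
  have hs : Function.Semiconj (fun P : ℤ × ℤ => ((P.1 : ℚ), (P.2 : ℚ)))
      (stepZ (fun x => F.eval x) δ) (henon (F.map (Int.castRingHom ℚ)) (δ : ℚ)) :=
    fun P => (henon_cast F δ P).symm
  refine ⟨n, hn, ?_⟩
  have h2 := (hs.iterate_right n) P
  rw [h] at h2
  exact h2.symm

lemma many_points (F : ℤ[X]) (δ : ℤ) (L : Finset (ℤ × ℤ)) (n : ℕ) (hn : 0 < n)
    (h : ∀ P ∈ L, (stepZ (fun x => F.eval x) δ)^[n] P = P) :
    (L.card : ℕ∞) ≤ {P : ℚ × ℚ | ∃ n : ℕ, 0 < n ∧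
      (henon (F.map (Int.castRingHom ℚ)) (δ : ℚ))^[n] P = P}.encard := by
  classical
  have hinj : Function.Injective (fun P : ℤ × ℤ => ((P.1 : ℚ), (P.2 : ℚ))) := by
    intro P Q h
    simp only [Prod.mk.injEq, Int.cast_inj] at h
    exact Prod.ext h.1 h.2
  have h1 : (L.image (fun P : ℤ × ℤ => ((P.1 : ℚ), (P.2 : ℚ)))).card = L.card :=
    card_image_of_injective _ hinj
  rw [← h1, ← Set.encard_coe_eq_coe_finsetCard]
  refine Set.encard_le_encard ?_
  intro Q hQ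
  rw [mem_coe, mem_image] at hQ
  obtain ⟨P, hP, rfl⟩ := hQ
  exact periodic_cast F δ P n hn (h P hP)

/-- A symmetric set of `d` integers. -/
noncomputable def symT (d : ℕ) : Finset ℤ :=
  if d % 2 = 1 then Icc (-((d / 2 : ℕ) : ℤ)) ((d / 2 : ℕ) : ℤ)
  else (Icc (-((d / 2 : ℕ) : ℤ)) ((d / 2 : ℕ) : ℤ)).erase 0

lemma card_symT (d : ℕ) : (symT d).card = d := by
  unfold symT
  split_ifs with h
  · rw [Int.card_Icc]; omega
  · rw [card_erase_of_mem (by rw [mem_Icc]; omega), Int.card_Icc]; omega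

lemma neg_symT (d : ℕ) (a : ℤ) (ha : a ∈ symT d) : -a ∈ symT d := by
  unfold symT at *
  split_ifs with h
  · rw [if_pos h, mem_Icc] at ha; rw [mem_Icc]; omega
  · rw [if_neg h, mem_erase, mem_Icc] at ha; rw [mem_erase, mem_Icc]; omega

/-- The polynomial with roots `symT d`. -/
noncomputable def polyT (d : ℕ) : ℤ[X] := ∏ t ∈ symT d, (X - C t)

lemma polyT_monic (d : ℕ) : (polyT d).Monic := monic_prod_of_monic _ _ fun t _ => monic_X_sub_C t

lemma polyT_natDegree (d : ℕ) : (polyT d).natDegree = d := by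
  unfold polyT
  rw [natDegree_prod_of_monic _ _ fun t _ => monic_X_sub_C t,
    sum_congr rfl (fun t _ => natDegree_X_sub_C t), sum_const, card_symT, smul_eq_mul, mul_one]

lemma polyT_eval (d : ℕ) (a : ℤ) (ha : a ∈ symT d) : (polyT d).eval a = 0 := by
  unfold polyT
  rw [eval_prod]
  exact prod_eq_zero ha (by simp)

/-- The map with `F = polyT d` and `δ = 1` or `δ = -1` has at least `d^2` rational periodic
points. -/
theorem polyT_points (d : ℕ) (δ : ℤ) (hδ : δ = 1 ∨ δ = -1) :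
    ((d ^ 2 : ℕ) : ℕ∞) ≤ {P : ℚ × ℚ | ∃ n : ℕ, 0 < n ∧
      (henon ((polyT d).map (Int.castRingHom ℚ)) (δ : ℚ))^[n] P = P}.encard := by
  have h := many_points (polyT d) δ (symT d ×ˢ symT d) 4 (by norm_num) ?_
  · rwa [card_product, card_symT, ← sq] at h
  · rintro ⟨a, b⟩ hab
    rw [mem_product] at hab
    obtain ⟨ha, hb⟩ := hab
    have ha0 := polyT_eval d a ha
    have hb0 := polyT_eval d b hb
    have ha1 := polyT_eval d (-a) (neg_symT d a ha)
    have hb1 := polyT_eval d (-b) (neg_symT d b hb)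
    rcases hδ with rfl | rfl
    · simp only [Function.iterate_succ, Function.iterate_zero, Function.comp, id, stepZ, ha0, hb0,
        ha1, hb1, one_mul, zero_sub, neg_neg]
    · simp only [Function.iterate_succ, Function.iterate_zero, Function.comp, id, stepZ, ha0, hb0,
        neg_mul, one_mul, sub_neg_eq_add, zero_add]

/-- degree 2: 8 points -/
theorem ex2 : (8 : ℕ∞) ≤ {P : ℚ × ℚ | ∃ n : ℕ, 0 < n ∧
      (henon ((X ^ 2 + X - 4 : ℤ[X]).map (Int.castRingHom ℚ)) ((1 : ℤ) : ℚ))^[n] P = P}.encard := by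
  have h := many_points (X ^ 2 + X - 4) 1
    {(-3, 1), (-2, -2), (-2, -1), (-2, 0), (-1, -2), (0, -2), (1, -3), (1, 1)} 6 (by norm_num) ?_
  · exact h
  · have e : (fun x => (X ^ 2 + X - 4 : ℤ[X]).eval x) = fun x : ℤ => x ^ 2 + x - 4 := by
      funext x
      simp
    rw [e]
    decide

/-- degree 3: 11 points -/
theorem ex3 : (11 : ℕ∞) ≤ {P : ℚ × ℚ | ∃ n : ℕ, 0 < n ∧
      (henon ((X ^ 3 - 5 * X : ℤ[X]).map (Int.castRingHom ℚ)) ((1 : ℤ) : ℚ))^[n] P = P}.encard := by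
  have h := many_points (X ^ 3 - 5 * X) 1
    {(-2, 0), (-2, 1), (-2, 2), (-1, 2), (0, -2), (0, 0), (0, 2), (1, -2), (2, -2), (2, -1), (2, 0)}
    6 (by norm_num) ?_
  · exact h
  · have e : (fun x => (X ^ 3 - 5 * X : ℤ[X]).eval x) = fun x : ℤ => x ^ 3 - 5 * x := by
      funext x
      simp
    rw [e]
    decide

/-- degree 4: 18 points -/
theorem ex4 : (18 : ℕ∞) ≤ {P : ℚ × ℚ | ∃ n : ℕ, 0 < n ∧
      (henon ((X ^ 4 - 5 * X ^ 2 + 4 : ℤ[X]).map (Int.castRingHom ℚ))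
        ((1 : ℤ) : ℚ))^[n] P = P}.encard := by
  have h := many_points (X ^ 4 - 5 * X ^ 2 + 4) 1
    {(-2, -2), (-2, -1), (-2, 1), (-2, 2), (-1, -2), (-1, -1), (-1, 1), (-1, 2), (0, 2),
      (1, -2), (1, -1), (1, 1), (1, 2), (2, -2), (2, -1), (2, 0), (2, 1), (2, 2)}
    4 (by norm_num) ?_
  · exact h
  · have e : (fun x => (X ^ 4 - 5 * X ^ 2 + 4 : ℤ[X]).eval x) =
        fun x : ℤ => x ^ 4 - 5 * x ^ 2 + 4 := by
      funext x
      simp
    rw [e]
    decide

end Pool.Agent.TH737.HEN
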