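import Pool.Agent.TH737.HEN.Glob
import Pool.Agent.H951R3.PB.F1

/-!
# Henon maps at the finite places: the covering lemma
-/

set_option autoImplicit false

namespace Pool.Agent.TH737.HEN

open Finset Polynomial NumberField

universe u

lemma abv_eval_sub {L : Type*} [Field L] [IsAlgClosed L] (w : AbsoluteValue L ℝ) (G : L[X])
    (hG : G.Monic) (hd : 1 ≤ G.natDegree) (c u : L) :
    w (G.eval u - c) = (((G - C c).roots).map fun ρ => w (u - ρ)).prod := by
  have hm : (G - C c).Monic := by
    refine hG.sub_of_left ?_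
    refine lt_of_le_of_lt degree_C_le ?_
    rw [degree_eq_natDegree hG.ne_zero]
    exact_mod_cast hd
  have hs : (G - C c).Splits := IsAlgClosed.splits _
  have := hs.eval_eq_prod_roots_of_monic hm u
  rw [eval_sub, eval_C] at this
  rw [this]
  have e := map_multiset_prod w (Multiset.map (fun ρ => u - ρ) (G - C c).roots)
  rw [Multiset.map_map] at e
  exact e

/-- The covering lemma at a finite place. -/
theorem exists_colour {L : Type*} [Field L] [IsAlgClosed L] (w : AbsoluteValue L ℝ)
    (hw : IsNonarchimedean w) (d : ℕ) (hd : 2 ≤ d) (S : Finset L) (G : L[X]) (δ : L)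
    (hG : G.Monic) (hdeg : G.natDegree = d) (hc : Closed G δ S) (B : ℝ) (hB : 1 ≤ B)
    (hBA : B ^ (d - 1) = max 1 (w δ)) :
    ∃ (R : Finset L) (κ : L → L), R.card ≤ d ∧ (∀ s ∈ S, κ s ∈ R) ∧
      ∀ s ∈ S, ∀ t ∈ S, κ s = κ t → w (s - t) ≤ B := by
  classical
  have hws : ∀ x y : L, w (x - y) ≤ max (w x) (w y) := by
    intro x y
    rw [sub_eq_add_neg]
    refine (hw _ _).trans ?_
    rw [w.map_neg]
  rcases S.eq_empty_or_nonempty with rfl | hS
  · exact ⟨∅, id, by simp, by simp, by simp⟩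
  obtain ⟨x, hx, hmax⟩ := exists_max_image (S ×ˢ S) (fun x => w (x.1 - x.2)) (hS.product hS)
  rw [mem_product] at hx
  set p := x.1
  set q := x.2
  have hp : p ∈ S := hx.1
  have hq : q ∈ S := hx.2
  set D := w (p - q) with hDdef
  have hD : ∀ u ∈ S, ∀ u' ∈ S, w (u - u') ≤ D :=
    fun u hu u' hu' => hmax (u, u') (mem_product.2 ⟨hu, hu'⟩)
  by_cases hD1 : D ≤ B
  · refine ⟨{0}, fun _ => 0, by simp; omega, by simp, ?_⟩
    intro s hs t ht _
    exact (hD s hs t ht).trans hD1
  push Not at hD1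
  have hD0 : 0 < D := by linarith
  set A := B ^ (d - 1) with hA
  have hA0 : 0 ≤ A := by positivity
  set R := (G - C (G.eval p)).roots with hR
  have hnorm : ∀ u ∈ S, (R.map fun ρ => w (u - ρ)).prod ≤ A * D := by
    intro u hu
    rw [hR, ← abv_eval_sub w G hG (by omega)]
    obtain ⟨a, ha, b, hb, h⟩ := hc u hu
    obtain ⟨a', ha', b', hb', h'⟩ := hc p hp
    rw [← h, ← h']
    have e : a + δ * b - (a' + δ * b') = (a - a') + δ * (b - b') := by ring
    rw [e]
    refine (hw _ _).trans (max_le ?_ ?_)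
    · refine (hD a ha a' ha').trans ?_
      have : 1 ≤ A := by rw [hBA]; exact le_max_left _ _
      nlinarith
    · rw [map_mul]
      have : w δ ≤ A := by rw [hBA]; exact le_max_right _ _
      exact mul_le_mul this (hD b hb b' hb') (w.nonneg _) hA0
  have hRcard : R.card = d := by
    have hs : (G - C (G.eval p)).Splits := IsAlgClosed.splits _
    have h1 : (G - C (G.eval p)).natDegree = d := by
      rw [natDegree_sub_C, hdeg]
    rw [hR, ← hs.natDegree_eq_card_roots, h1]
  have hclose : ∀ u ∈ S, ∃ ρ ∈ R, w (u - ρ) ≤ B := by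
    intro u hu
    by_contra hcon
    push Not at hcon
    obtain ⟨z, hz, hzu⟩ : ∃ z ∈ S, D ≤ w (z - u) := by
      by_contra hcon2
      push Not at hcon2
      have h1 := hcon2 p hp
      have h2 := hcon2 q hq
      have h3 : D ≤ max (w (p - u)) (w (q - u)) := by
        rw [hDdef]
        have e : p - q = (p - u) - (q - u) := by ring
        rw [e]
        exact hws _ _
      exact absurd h3 (not_le.2 (max_lt h1 h2))
    obtain ⟨ρ, hρ, hρu⟩ : ∃ ρ ∈ R, D ≤ w (u - ρ) := by
      by_contra hcon2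
      push Not at hcon2
      have h1 : ∀ ρ ∈ R, D ≤ w (z - ρ) := by
        intro ρ hρ
        have h2 := hcon2 ρ hρ
        have h3 : w (z - u) ≤ max (w (z - ρ)) (w (u - ρ)) := by
          have e : z - u = (z - ρ) - (u - ρ) := by ring
          rw [e]
          exact hws _ _
        rcases le_max_iff.1 (hzu.trans h3) with h4 | h4
        · exact h4
        · exact absurd h4 (not_le.2 h2)
      have h2 := pow_card_le_prod_map R (fun ρ => w (z - ρ)) D (by positivity) h1
      rw [hRcard] at h2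
      have h3 := hnorm z hz
      have h4 : D ^ d = D ^ (d - 1) * D := by
        rw [← pow_succ]; congr 1; omega
      have h5 : A < D ^ (d - 1) := pow_lt_pow_left₀ hD1 (by linarith) (by omega)
      nlinarith [mul_lt_mul_of_pos_right h5 hD0]
    obtain ⟨R', hR'⟩ := Multiset.exists_cons_of_mem hρ
    have h2 := hnorm u hu
    rw [hR', Multiset.map_cons, Multiset.prod_cons] at h2
    have hcard' : R'.card = d - 1 := by
      have := congrArg Multiset.card hR'
      rw [hRcard, Multiset.card_cons] at this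
      omega
    have h5 : A < (R'.map fun ρ => w (u - ρ)).prod := by
      have h4 := pow_card_lt_prod_map R' (fun ρ => w (u - ρ)) B (by linarith)
        (fun ρ' hρ' => hcon ρ' (by rw [hR']; exact Multiset.mem_cons_of_mem hρ'))
        (by omega)
      rwa [hcard'] at h4
    nlinarith [mul_lt_mul_of_pos_left h5 hD0, mul_le_mul_of_nonneg_right hρu
      (show (0 : ℝ) ≤ (R'.map fun ρ => w (u - ρ)).prod by linarith)]
  choose! κ hκR hκ using hclose
  refine ⟨R.toFinset, κ, ?_, ?_, ?_⟩
  · rw [← hRcard]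
    exact Multiset.toFinset_card_le R
  · intro s hs
    simpa using hκR s hs
  · intro s hs t ht hst
    have e : s - t = (s - κ s) - (t - κ t) := by rw [hst]; ring
    rw [e]
    exact (hws _ _).trans (max_le (hκ s hs) (hκ t ht))

lemma exists_root (a : ℝ) (ha : 1 ≤ a) (n : ℕ) (hn : n ≠ 0) :
    ∃ B : ℝ, 1 ≤ B ∧ B ^ n = a ∧ B = a ^ ((1 : ℝ) / n) := by
  refine ⟨a ^ ((1 : ℝ) / n), Real.one_le_rpow ha (by positivity), ?_, rfl⟩
  rw [← Real.rpow_natCast, ← Real.rpow_mul (by linarith)]
  have : (1 : ℝ) / n * n = 1 := by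
    field_simp
  rw [this, Real.rpow_one]

/-- Scaling a polynomial to a monic one. -/
lemma exists_monic' {L : Type*} [Field L] [IsAlgClosed L] [DecidableEq L] (F : L[X]) (δ : L)
    (hd : 2 ≤ F.natDegree) (S : Finset L) (hS : Closed F δ S) :
    ∃ (α : L) (G : L[X]), α ^ (F.natDegree - 1) = F.leadingCoeff ∧ G.Monic ∧
      G.natDegree = F.natDegree ∧ Closed G δ (S.image (fun x => α * x)) := by
  have hF0 : F ≠ 0 := by
    rintro rfl
    simp at hd
  obtain ⟨α, hα⟩ := IsAlgClosed.exists_pow_nat_eq F.leadingCoeff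
    (show 0 < F.natDegree - 1 by omega)
  have hα0 : α ≠ 0 := by
    rintro rfl
    rw [zero_pow (by omega)] at hα
    exact leadingCoeff_ne_zero.2 hF0 hα.symm
  have hlin : (C α⁻¹ * X : L[X]).natDegree = 1 := by
    rw [natDegree_C_mul (inv_ne_zero hα0), natDegree_X]
  have hdeg : (C α * F.comp (C α⁻¹ * X)).natDegree = F.natDegree := by
    rw [natDegree_C_mul hα0, natDegree_comp, hlin, mul_one]
  refine ⟨α, C α * F.comp (C α⁻¹ * X), hα, ?_, hdeg, ?_⟩
  · rw [Monic, leadingCoeff_mul, leadingCoeff_C, leadingCoeff_comp (by rw [hlin]; norm_num),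
      leadingCoeff_mul, leadingCoeff_C, leadingCoeff_X, mul_one, ← hα]
    have : α⁻¹ ^ F.natDegree = α⁻¹ * α⁻¹ ^ (F.natDegree - 1) := by
      rw [← pow_succ']; congr 1; omega
    rw [this, inv_pow]
    field_simp
  · intro x hx
    obtain ⟨s, hs, rfl⟩ := mem_image.1 hx
    obtain ⟨p, hp, q, hq, h⟩ := hS s hs
    refine ⟨_, mem_image_of_mem _ hp, _, mem_image_of_mem _ hq, ?_⟩
    rw [eval_mul, eval_C, eval_comp, eval_mul, eval_C, eval_X, inv_mul_cancel_left₀ hα0, ← h]
    ring

/-- The colouring of a closed set at an arbitrary finite place. -/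
theorem exists_colour_place {K : Type u} [Field K] [NumberField K] (v : FinitePlace K) (d : ℕ)
    (hd : 2 ≤ d) (F : K[X]) (δ : K) (hF : F.natDegree = d) (S : Finset K)
    (hS : Closed F δ S) :
    ∃ (R : Finset (AlgebraicClosure K)) (κ : K → AlgebraicClosure K), R.card ≤ d ∧
      (∀ s ∈ S, κ s ∈ R) ∧
      ∀ s ∈ S, ∀ t ∈ S, κ s = κ t → v ((s - t) ^ (d - 1) * F.leadingCoeff) ≤ max 1 (v δ) := by
  classical
  obtain ⟨w, hwext⟩ := Pool.Agent.H951R3.PB.exists_ext_fin v
  have hw : ∀ x : K, w (algebraMap K (AlgebraicClosure K) x) = v x := fun x => hwext x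
  have hna := ext_nonarch v w hw
  set φ := algebraMap K (AlgebraicClosure K) with hφ
  have hdegm : (F.map φ).natDegree = d := by
    rw [natDegree_map_eq_of_injective φ.injective, hF]
  obtain ⟨α, G, hα, hG, hGd, hGc⟩ := exists_monic' (F.map φ) (φ δ) (by rw [hdegm]; exact hd)
    (S.image φ) (closed_map φ hS)
  obtain ⟨B, hB1, hB, -⟩ := exists_root (max 1 (w (φ δ))) (le_max_left _ _) (d - 1) (by omega)
  obtain ⟨R, κ, hR, hκ, hκ2⟩ := exists_colour w hna d hd _ G (φ δ) hG (by rw [hGd, hdegm])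
    hGc B hB1 hB
  refine ⟨R, fun s => κ (α * φ s), hR, ?_, ?_⟩
  · intro s hs
    exact hκ _ (mem_image_of_mem _ (mem_image_of_mem _ hs))
  · intro s hs t ht hst
    have h1 := hκ2 _ (mem_image_of_mem _ (mem_image_of_mem _ hs)) _
      (mem_image_of_mem _ (mem_image_of_mem _ ht)) hst
    rw [← mul_sub, ← map_sub, map_mul, hw] at h1
    have h5 : w α ^ (d - 1) = v F.leadingCoeff := by
      have := congrArg w hα
      rw [map_pow, hdegm, leadingCoeff_map, hw] at this
      exact this
    rw [map_mul, map_pow, ← h5, ← mul_pow, mul_comm, ← hw δ, ← hB]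
    exact pow_le_pow_left₀ (mul_nonneg (w.nonneg _) (apply_nonneg v _)) h1 _

end Pool.Agent.TH737.HEN
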