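import Pool.Agent.TH737.HEN.NA

/-!
# Henon maps: the bounds
-/

set_option autoImplicit false

namespace Pool.Agent.TH737.HEN

open Finset Polynomial NumberField

universe u

lemma exists_scale (a : ℝ) (ha : 0 < a) (n : ℕ) (hn : n ≠ 0) : ∃ m : ℝ, 0 < m ∧ a * m ^ n = 1 := by
  refine ⟨(1 / a) ^ ((1 : ℝ) / n), by positivity, ?_⟩
  rw [← Real.rpow_natCast, ← Real.rpow_mul (by positivity)]
  have : (1 : ℝ) / n * n = 1 := by
    field_simp
  rw [this, Real.rpow_one]
  field_simp

lemma one_le_inf {K : Type u} [Field K] [NumberField K] (F : K[X]) (δ : K)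
    (hd : 2 ≤ F.natDegree) (h : ∀ v : FinitePlace K, PotInt v F δ) (S : Finset K)
    (hS : Closed F δ S) {s t : K} (hs : s ∈ S) (ht : t ∈ S) (hne : s ≠ t) :
    1 ≤ ∏ w : InfinitePlace K, w ((s - t) ^ (F.natDegree - 1) * F.leadingCoeff) ^ w.mult := by
  refine one_le_prod_infinite _ ?_ fun v => potInt_bound v F δ hd (h v) S hS hs ht
  refine mul_ne_zero (pow_ne_zero _ (sub_ne_zero.2 hne)) ?_
  rw [Ne, leadingCoeff_eq_zero]
  rintro rfl
  simp at hd

/-- Coordinates of rational periodic points. -/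
theorem rat_closed_card (d : ℕ) (hd : 2 ≤ d) (F : ℚ[X]) (δ : ℚ) (hF : F.natDegree = d)
    (h : ∀ v : FinitePlace ℚ, PotInt v F δ) (k : ℕ) (hk : 1 ≤ k)
    (hsmall : (1 + |δ|) * 2 ^ (d - 1) < k ^ (d - 1) * (d - 1).factorial)
    (S : Finset ℚ) (hS : Closed F δ S) : S.card ≤ k * d := by
  classical
  have hF0 : F ≠ 0 := by
    rintro rfl
    simp at hF
    omega
  have hlead : F.leadingCoeff = F.coeff d := by rw [leadingCoeff, hF]
  have hlead0 : F.coeff d ≠ 0 := by rw [← hlead]; exact leadingCoeff_ne_zero.2 hF0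
  have ha : 0 < |((F.coeff d : ℚ) : ℝ)| := by
    rw [abs_pos]; exact_mod_cast hlead0
  obtain ⟨m, hm0, hm⟩ := exists_scale _ ha (d - 1) (by omega)
  set φ := Rat.castHom ℝ with hφ
  have hcard : (S.image φ).card = S.card := card_image_of_injective _ φ.injective
  rw [← hcard]
  refine real_card_le d hd (S.image φ) (F.map φ) (φ δ) ?_ (closed_map φ hS) m hm0 ?_ ?_ k hk ?_
  · rw [natDegree_map_eq_of_injective φ.injective, hF]
  · intro u hu u' hu' hne
    obtain ⟨s, hs, rfl⟩ := mem_image.1 hu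
    obtain ⟨t, ht, rfl⟩ := mem_image.1 hu'
    have hst : s ≠ t := fun e => hne (by rw [e])
    have h1 := one_le_inf F δ (by omega) h S hS hs ht hst
    rw [Fintype.prod_unique] at h1
    have h2 : (1 : ℝ) ≤ (default : InfinitePlace ℚ) ((s - t) ^ (F.natDegree - 1) * F.leadingCoeff) := by
      by_contra hcon
      push Not at hcon
      have h3 := pow_lt_one₀ (apply_nonneg (default : InfinitePlace ℚ) _) hcon
        (InfinitePlace.mult_ne_zero (w := (default : InfinitePlace ℚ)))
      linarith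
    rw [Rat.infinitePlace_apply, hF, hlead] at h2
    push_cast at h2
    rw [abs_mul, abs_pow] at h2
    have h3 : m ^ (d - 1) ≤ |(s : ℝ) - t| ^ (d - 1) := by
      have h4 : |((F.coeff d : ℚ) : ℝ)| * m ^ (d - 1) ≤
          |((F.coeff d : ℚ) : ℝ)| * |(s : ℝ) - t| ^ (d - 1) := by
        rw [hm]; linarith
      exact le_of_mul_le_mul_left h4 ha
    exact (pow_le_pow_iff_left₀ hm0.le (abs_nonneg _) (by omega)).1 h3
  · rw [coeff_map]
    exact hm.ge
  · have : φ δ = (δ : ℝ) := rfl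
    rw [this]
    exact_mod_cast hsmall

theorem rat_points_card (d : ℕ) (hd : 2 ≤ d) (F : ℚ[X]) (δ : ℚ) (hF : F.natDegree = d)
    (h : ∀ v : FinitePlace ℚ, PotInt v F δ) (k : ℕ) (hk : 1 ≤ k)
    (hsmall : (1 + |δ|) * 2 ^ (d - 1) < k ^ (d - 1) * (d - 1).factorial)
    (Y : Finset (ℚ × ℚ)) (hY : ∀ P ∈ Y, ∃ n : ℕ, 0 < n ∧ (henon F δ)^[n] P = P) :
    Y.card ≤ (k * d) ^ 2 := by
  obtain ⟨S, hS, hYS⟩ := exists_closed F δ Y hY
  have h1 := rat_closed_card d hd F δ hF h k hk hsmall S hS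
  have h2 := card_le_card hYS
  rw [card_product] at h2
  calc Y.card ≤ S.card * S.card := h2
    _ ≤ (k * d) * (k * d) := Nat.mul_le_mul h1 h1
    _ = _ := by ring

/-- One infinite place. -/
theorem one_place_closed_card {K : Type u} [Field K] [NumberField K]
    (hone : Fintype.card (InfinitePlace K) = 1) (d : ℕ) (hd : 16 ≤ d)
    (F : K[X]) (δ : K) (hF : F.natDegree = d)
    (h : ∀ v : FinitePlace K, PotInt v F δ)
    (hsmall : ∀ w : InfinitePlace K, 2 * (d + 1) * (1 + w δ) < (4 / 3 : ℝ) ^ (d - 16))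
    (S : Finset K) (hS : Closed F δ S) : S.card ≤ d := by
  classical
  obtain ⟨w, hw⟩ := Fintype.card_eq_one_iff.1 hone
  have hF0 : F ≠ 0 := by
    rintro rfl
    simp at hF
    omega
  have hlead : F.leadingCoeff = F.coeff d := by rw [leadingCoeff, hF]
  have hlead0 : F.coeff d ≠ 0 := by rw [← hlead]; exact leadingCoeff_ne_zero.2 hF0
  set φ := w.embedding with hφ
  have hnorm : ∀ x : K, ‖φ x‖ = w x := fun x => InfinitePlace.norm_embedding_eq w x
  have ha : 0 < w (F.coeff d) := InfinitePlace.pos_iff.2 hlead0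
  obtain ⟨m, hm0, hm⟩ := exists_scale _ ha (d - 1) (by omega)
  have hcard : (S.image φ).card = S.card := card_image_of_injective _ φ.injective
  rw [← hcard]
  refine cplx_card_le d hd (S.image φ) (F.map φ) (φ δ) ?_ (closed_map φ hS) m hm0 ?_ ?_ ?_
  · rw [natDegree_map_eq_of_injective φ.injective, hF]
  · intro u hu u' hu' hne
    obtain ⟨s, hs, rfl⟩ := mem_image.1 hu
    obtain ⟨t, ht, rfl⟩ := mem_image.1 hu'
    have hst : s ≠ t := fun e => hne (by rw [e])
    have h1 := one_le_inf F δ (by omega) h S hS hs ht hst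
    have huniv : (Finset.univ : Finset (InfinitePlace K)) = {w} := by
      ext x; simp [hw x]
    rw [huniv, prod_singleton] at h1
    have h2 : (1 : ℝ) ≤ w ((s - t) ^ (F.natDegree - 1) * F.leadingCoeff) := by
      by_contra hcon
      push Not at hcon
      have h3 := pow_lt_one₀ (apply_nonneg w _) hcon (InfinitePlace.mult_ne_zero (w := w))
      linarith
    rw [hF, hlead, map_mul, map_pow] at h2
    rw [← map_sub, hnorm]
    have h3 : m ^ (d - 1) ≤ w (s - t) ^ (d - 1) := by
      have h4 : w (F.coeff d) * m ^ (d - 1) ≤ w (F.coeff d) * w (s - t) ^ (d - 1) := by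
        rw [hm]; linarith
      exact le_of_mul_le_mul_left h4 ha
    exact (pow_le_pow_iff_left₀ hm0.le (apply_nonneg w _) (by omega)).1 h3
  · rw [coeff_map, hnorm]
    exact hm.ge
  · rw [hnorm]
    exact hsmall w

theorem one_place_points_card {K : Type u} [Field K] [NumberField K]
    (hone : Fintype.card (InfinitePlace K) = 1) (d : ℕ) (hd : 16 ≤ d)
    (F : K[X]) (δ : K) (hF : F.natDegree = d)
    (h : ∀ v : FinitePlace K, PotInt v F δ)
    (hsmall : ∀ w : InfinitePlace K, 2 * (d + 1) * (1 + w δ) < (4 / 3 : ℝ) ^ (d - 16))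
    (Y : Finset (K × K)) (hY : ∀ P ∈ Y, ∃ n : ℕ, 0 < n ∧ (henon F δ)^[n] P = P) :
    Y.card ≤ d ^ 2 := by
  obtain ⟨S, hS, hYS⟩ := exists_closed F δ Y hY
  have h1 := one_place_closed_card hone d hd F δ hF h hsmall S hS
  have h2 := card_le_card hYS
  rw [card_product] at h2
  calc Y.card ≤ S.card * S.card := h2
    _ ≤ d * d := Nat.mul_le_mul h1 h1
    _ = _ := by ring

/-- The colouring at an infinite place. -/
theorem exists_colour_inf {K : Type u} [Field K] [NumberField K] (w : InfinitePlace K) (d : ℕ)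
    (hd : 2 ≤ d) (F : K[X]) (δ : K) (hF : F.natDegree = d) (S : Finset K) (hS : Closed F δ S)
    (B : ℝ) (hB : 1 ≤ B) (hBA : B ^ (d - 1) = 1 + w δ) (c : ℝ) (hc1 : 1 ≤ c) :
    ∃ κ : K → ℤ × ℤ, ((S.image κ).card : ℝ) ≤ (36 * (c * B)) ^ w.mult * d ∧
      ∀ s t, κ s = κ t → w ((s - t) ^ (d - 1) * F.leadingCoeff) * c ^ (d - 1) < 1 := by
  classical
  have hF0 : F ≠ 0 := by
    rintro rfl
    simp at hF
    omega
  have hlead0 : F.leadingCoeff ≠ 0 := leadingCoeff_ne_zero.2 hF0
  have hc0 : 0 ≤ c := by linarith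
  by_cases hw : w.IsReal
  · set ψ := InfinitePlace.embedding_of_isReal hw with hψ
    have hnorm : ∀ x : K, |ψ x| = w x := fun x => InfinitePlace.norm_embedding_of_isReal hw x
    have hdegm : (F.map ψ).natDegree = d := by
      rw [natDegree_map_eq_of_injective ψ.injective, hF]
    have ha : 0 < w F.leadingCoeff := InfinitePlace.pos_iff.2 hlead0
    obtain ⟨m, hm0, hm⟩ := exists_scale _ ha (d - 1) (by omega)
    -- scaling factor `β = 1/m`
    set β : ℝ := m⁻¹ with hβ
    have hβ0 : 0 < β := inv_pos.2 hm0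
    have hβp : β ^ (d - 1) = w F.leadingCoeff := by
      rw [hβ, inv_pow]
      field_simp
      linarith
    clear_value β
    set G : ℝ[X] := C β * (F.map ψ).comp (C β⁻¹ * X) with hG
    have hlin : (C β⁻¹ * X : ℝ[X]).natDegree = 1 := by
      rw [natDegree_C_mul (inv_ne_zero hβ0.ne'), natDegree_X]
    have hGd : G.natDegree = d := by
      rw [hG, natDegree_C_mul hβ0.ne', natDegree_comp, hlin, mul_one, hdegm]
    have hGl : |G.leadingCoeff| = 1 := by
      rw [hG, leadingCoeff_mul, leadingCoeff_C, leadingCoeff_comp (by rw [hlin]; norm_num),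
        leadingCoeff_mul, leadingCoeff_C, leadingCoeff_X, mul_one, hdegm, leadingCoeff_map,
        abs_mul, abs_mul, hnorm, abs_pow, abs_of_pos hβ0, abs_of_pos (inv_pos.2 hβ0), ← hβp]
      have : β⁻¹ ^ d = β⁻¹ * β⁻¹ ^ (d - 1) := by
        rw [← pow_succ']; congr 1; omega
      rw [this, inv_pow]
      have e1 : β ^ (d - 1) ≠ 0 := pow_ne_zero _ hβ0.ne'
      calc β * (β ^ (d - 1) * (β⁻¹ * (β ^ (d - 1))⁻¹))
          = (β * β⁻¹) * (β ^ (d - 1) * (β ^ (d - 1))⁻¹) := by ring
        _ = 1 := by rw [mul_inv_cancel₀ hβ0.ne', mul_inv_cancel₀ e1, one_mul]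
    have hGc : Closed G (ψ δ) ((S.image ψ).image (fun x => β * x)) := by
      intro x hx
      obtain ⟨s, hs, rfl⟩ := mem_image.1 hx
      obtain ⟨p, hp, q, hq, h⟩ := closed_map ψ hS s hs
      refine ⟨_, mem_image_of_mem _ hp, _, mem_image_of_mem _ hq, ?_⟩
      rw [hG, eval_mul, eval_C, eval_comp, eval_mul, eval_C, eval_X,
        inv_mul_cancel_left₀ hβ0.ne', ← h]
      ring
    have hcard := card_floor_le d hd _ G (ψ δ) hGl hGd hGc B hB
      (by rw [hnorm]; exact hBA.ge) c hc1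
    refine ⟨fun s => (⌊c * (β * ψ s)⌋, 0), ?_, ?_⟩
    · rw [hw.mult_eq_one, pow_one]
      refine le_trans ?_ hcard
      rw [image_image, image_image]
      have hsub : S.image (fun s => ((⌊c * (β * ψ s)⌋, 0) : ℤ × ℤ)) =
          (S.image ((fun x : ℝ => ⌊c * x⌋) ∘ ((fun x => β * x) ∘ ψ))).image
            (fun n => (n, 0)) := by
        rw [image_image]
        rfl
      rw [hsub]
      exact_mod_cast card_image_le
    · intro s t hst
      have h1 : ⌊c * (β * ψ s)⌋ = ⌊c * (β * ψ t)⌋ := congrArg Prod.fst hst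
      have h2 := Int.abs_sub_lt_one_of_floor_eq_floor h1
      rw [← mul_sub, ← mul_sub, ← map_sub, abs_mul, abs_mul, hnorm, abs_of_pos hβ0,
        abs_of_nonneg hc0] at h2
      have e : w ((s - t) ^ (d - 1) * F.leadingCoeff) * c ^ (d - 1) =
          (c * (β * w (s - t))) ^ (d - 1) := by
        rw [map_mul, map_pow, ← hβp, mul_pow, mul_pow]; ring
      rw [e]
      exact pow_lt_one₀ (mul_nonneg hc0 (mul_nonneg hβ0.le (apply_nonneg w _))) h2 (by omega)
  · have hwc : w.IsComplex := InfinitePlace.not_isReal_iff_isComplex.1 hw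
    have hnorm : ∀ x : K, ‖w.embedding x‖ = w x :=
      fun x => InfinitePlace.norm_embedding_eq w x
    have hdegm : (F.map w.embedding).natDegree = d := by
      rw [natDegree_map_eq_of_injective w.embedding.injective, hF]
    obtain ⟨α, G, hα, hG, hGd, hGc⟩ := exists_monic' (F.map w.embedding) (w.embedding δ)
      (by rw [hdegm]; exact hd) (S.image w.embedding) (closed_map w.embedding hS)
    have hcard := card_cells_le d hd _ G (w.embedding δ) (by rw [hG.leadingCoeff]; simp)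
      (by rw [hGd, hdegm]) hGc B hB (by rw [hnorm]; exact hBA.ge) c hc1
    refine ⟨fun s => cell ((c : ℂ) * (α * w.embedding s)), ?_, ?_⟩
    · rw [hwc.mult_eq_two]
      rw [image_image, image_image] at hcard
      exact hcard
    · intro s t hst
      have h4 := cell_dist hst
      rw [← mul_sub, ← mul_sub, ← map_sub, norm_mul, norm_mul, hnorm, Complex.norm_real,
        Real.norm_of_nonneg hc0] at h4
      have h5 : ‖α‖ ^ (d - 1) = w F.leadingCoeff := by
        have := congrArg norm hα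
        rw [norm_pow, hdegm, leadingCoeff_map, hnorm] at this
        exact this
      have e : w ((s - t) ^ (d - 1) * F.leadingCoeff) * c ^ (d - 1) =
          (c * (‖α‖ * w (s - t))) ^ (d - 1) := by
        rw [map_mul, map_pow, ← h5, mul_pow, mul_pow]; ring
      rw [e]
      exact pow_lt_one₀ (mul_nonneg hc0 (mul_nonneg (norm_nonneg _) (apply_nonneg w _))) h4
        (by omega)

lemma one_le_prod_infinite' {K : Type u} [Field K] [NumberField K] (x : K) (hx : x ≠ 0)
    (T : Finset (FinitePlace K)) (e : FinitePlace K → ℝ) (he : ∀ v ∈ T, v x ≤ e v)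
    (h : ∀ v : FinitePlace K, v ∉ T → v x ≤ 1) :
    1 ≤ (∏ w : InfinitePlace K, w x ^ w.mult) * ∏ v ∈ T, e v := by
  classical
  have h1 := prod_abs_eq_one hx
  have hfin := FinitePlace.hasFiniteMulSupport hx
  have h2 : ∏ᶠ v : FinitePlace K, v x = ∏ v ∈ hfin.toFinset ∪ T, v x := by
    refine finprod_eq_prod_of_mulSupport_subset _ ?_
    intro v hv
    simp only [coe_union, Set.mem_union, mem_coe]
    exact Or.inl (hfin.mem_toFinset.2 hv)
  have h3 : ∏ v ∈ hfin.toFinset ∪ T, v x ≤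
      ∏ v ∈ hfin.toFinset ∪ T, (if v ∈ T then e v else 1) := by
    refine prod_le_prod (fun v _ => apply_nonneg v x) fun v _ => ?_
    split_ifs with hv
    · exact he v hv
    · exact h v hv
  have h4 : ∏ v ∈ hfin.toFinset ∪ T, (if v ∈ T then e v else (1 : ℝ)) = ∏ v ∈ T, e v := by
    rw [prod_ite_mem]
    congr 1
    ext v
    simp only [mem_inter, mem_union]
    tauto
  have h5 : 0 ≤ ∏ w : InfinitePlace K, w x ^ w.mult :=
    prod_nonneg fun w _ => pow_nonneg (apply_nonneg w x) _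
  calc (1 : ℝ) = (∏ w : InfinitePlace K, w x ^ w.mult) * ∏ᶠ v : FinitePlace K, v x := h1.symm
    _ ≤ _ := by
      refine mul_le_mul_of_nonneg_left ?_ h5
      rw [h2, ← h4]
      exact h3

/-- All number fields, with a set `T` of bad places. -/
theorem closed_card {K : Type u} [Field K] [NumberField K] (d : ℕ) (hd : 2 ≤ d)
    (F : K[X]) (δ : K) (hF : F.natDegree = d) (T : Finset (FinitePlace K))
    (h : ∀ v : FinitePlace K, v ∉ T → PotInt v F δ) (S : Finset K) (hS : Closed F δ S) :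
    (S.card : ℝ) ≤ d ^ T.card * (∏ v ∈ T, max 1 (v δ)) ^ ((d : ℝ) - 1)⁻¹ *
      ∏ w : InfinitePlace K, (36 * (1 + w δ) ^ ((d : ℝ) - 1)⁻¹) ^ w.mult * d := by
  classical
  have hF0 : F ≠ 0 := by
    rintro rfl
    simp at hF
    omega
  have hlead0 : F.leadingCoeff ≠ 0 := leadingCoeff_ne_zero.2 hF0
  have hcast : ((d : ℝ) - 1)⁻¹ = (((d - 1 : ℕ) : ℝ))⁻¹ := by
    rw [Nat.cast_sub (by omega)]; simp
  rw [hcast]
  -- the constants
  set Δ : ℝ := ∏ v ∈ T, max 1 (v δ) with hΔ
  have hΔ1 : 1 ≤ Δ := by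
    calc (1 : ℝ) = ∏ _v ∈ T, (1 : ℝ) := by rw [prod_const_one]
      _ ≤ Δ := prod_le_prod (fun _ _ => zero_le_one) fun v _ => le_max_left _ _
  set D := Module.finrank ℚ K with hD
  have hDpos : 0 < D := Module.finrank_pos
  obtain ⟨c, hc1, hc, -⟩ := exists_root Δ hΔ1 ((d - 1) * D)
    (Nat.mul_ne_zero (by omega) hDpos.ne')
  have hc0 : 0 ≤ c := by linarith
  have hcD : c ^ D = Δ ^ (((d - 1 : ℕ) : ℝ))⁻¹ := by
    rw [← hc, mul_comm (d - 1) D, pow_mul, Real.pow_rpow_inv_natCast (by positivity) (by omega)]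
  have hw0 : ∀ w : InfinitePlace K, 0 ≤ w δ := fun w => apply_nonneg w δ
  have hBex := fun w : InfinitePlace K => exists_root (1 + w δ) (by have := hw0 w; linarith)
    (d - 1) (by omega)
  choose B hB1 hB hBe using hBex
  have hex1 := fun w : InfinitePlace K => exists_colour_inf w d hd F δ hF S hS (B w) (hB1 w)
    (hB w) c hc1
  choose κ hκc hκ using hex1
  have hex2 := fun v : T => exists_colour_place v.1 d hd F δ hF S hS
  choose R μ hR hμR hμ using hex2
  -- the colouring
  let col : K → (InfinitePlace K → ℤ × ℤ) × (T → AlgebraicClosure K) :=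
    fun s => (fun w => κ w s, fun v => μ v s)
  have hinj : Set.InjOn col (S : Set K) := by
    intro s hs t ht hst
    by_contra hne
    set x := (s - t) ^ (d - 1) * F.leadingCoeff with hxdef
    have hx : x ≠ 0 := mul_ne_zero (pow_ne_zero _ (sub_ne_zero.2 hne)) hlead0
    have h1 : 1 ≤ (∏ w : InfinitePlace K, w x ^ w.mult) * Δ := by
      refine one_le_prod_infinite' x hx T (fun v => max 1 (v δ)) ?_ ?_
      · intro v hv
        exact hμ ⟨v, hv⟩ s hs t ht (congrFun (congrArg Prod.snd hst) ⟨v, hv⟩)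
      · intro v hv
        have := potInt_bound v F δ (by omega) (h v hv) S hS hs ht
        rwa [hF] at this
    have h2 : ∀ w : InfinitePlace K, w x * c ^ (d - 1) < 1 :=
      fun w => hκ w s t (congrFun (congrArg Prod.fst hst) w)
    have h3 : ∏ w : InfinitePlace K, (w x * c ^ (d - 1)) ^ w.mult <
        ∏ _w : InfinitePlace K, (1 : ℝ) := by
      refine prod_lt_prod_of_nonempty (fun w _ => pow_pos (mul_pos (InfinitePlace.pos_iff.2 hx)
        (by positivity)) _) (fun w _ => pow_lt_one₀ (mul_nonneg (apply_nonneg w _)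
        (by positivity)) (h2 w) InfinitePlace.mult_ne_zero) ?_
      exact univ_nonempty
    rw [prod_const_one] at h3
    have h4 : ∏ w : InfinitePlace K, (w x * c ^ (d - 1)) ^ w.mult =
        (∏ w : InfinitePlace K, w x ^ w.mult) * Δ := by
      rw [← hc, pow_mul, hD, ← InfinitePlace.sum_mult_eq, ← prod_pow_eq_pow_sum,
        ← prod_mul_distrib]
      exact prod_congr rfl fun w _ => mul_pow _ _ _
    rw [h4] at h3
    linarith
  have hmaps : ∀ s ∈ S, col s ∈ (Fintype.piFinset fun w : InfinitePlace K => S.image (κ w)) ×ˢ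
      (Fintype.piFinset fun v : T => R v) := by
    intro s hs
    rw [mem_product, Fintype.mem_piFinset, Fintype.mem_piFinset]
    exact ⟨fun w => mem_image_of_mem _ hs, fun v => hμR v s hs⟩
  have hA : ∀ w : InfinitePlace K, 0 ≤ 36 * (c * B w) := fun w => by
    have := hB1 w
    positivity
  have hcard := card_le_card_of_injOn col hmaps hinj
  rw [card_product, Fintype.card_piFinset, Fintype.card_piFinset] at hcard
  have h1 : ((∏ w : InfinitePlace K, (S.image (κ w)).card : ℕ) : ℝ) ≤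
      ∏ w : InfinitePlace K, (36 * (c * B w)) ^ w.mult * d := by
    rw [Nat.cast_prod]
    exact prod_le_prod (fun w _ => Nat.cast_nonneg _) fun w _ => hκc w
  have h2 : ((∏ v : T, (R v).card : ℕ) : ℝ) ≤ (d : ℝ) ^ T.card := by
    have : (∏ v : T, (R v).card) ≤ ∏ _v : T, d := prod_le_prod' fun v _ => hR v
    rw [prod_const, card_univ, Fintype.card_coe] at this
    exact_mod_cast this
  have h3 : ∏ w : InfinitePlace K, ((36 * (c * B w)) ^ w.mult * d : ℝ) =
      c ^ D * ∏ w : InfinitePlace K, (36 * (1 + w δ) ^ (((d - 1 : ℕ) : ℝ))⁻¹) ^ w.mult * d := by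
    rw [hD, ← InfinitePlace.sum_mult_eq, ← prod_pow_eq_pow_sum, ← prod_mul_distrib]
    refine prod_congr rfl fun w _ => ?_
    have e : B w = (1 + w δ) ^ (((d - 1 : ℕ) : ℝ))⁻¹ := by
      rw [hBe w, one_div]
    have e2 : 36 * (c * B w) = c * (36 * B w) := by ring
    rw [← e, e2, mul_pow]
    ring
  calc (S.card : ℝ) ≤ ((∏ w : InfinitePlace K, (S.image (κ w)).card : ℕ) : ℝ) *
      ((∏ v : T, (R v).card : ℕ) : ℝ) := by exact_mod_cast hcard
    _ ≤ (∏ w : InfinitePlace K, (36 * (c * B w)) ^ w.mult * d) * (d : ℝ) ^ T.card := by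
        refine mul_le_mul h1 h2 (Nat.cast_nonneg _) ?_
        exact prod_nonneg fun w _ => mul_nonneg (pow_nonneg (hA w) _) (Nat.cast_nonneg d)
    _ = _ := by
        rw [h3, hcD]
        ring

theorem points_card {K : Type u} [Field K] [NumberField K] (d : ℕ) (hd : 2 ≤ d)
    (F : K[X]) (δ : K) (hF : F.natDegree = d) (T : Finset (FinitePlace K))
    (h : ∀ v : FinitePlace K, v ∉ T → PotInt v F δ)
    (Y : Finset (K × K)) (hY : ∀ P ∈ Y, ∃ n : ℕ, 0 < n ∧ (henon F δ)^[n] P = P) :
    (Y.card : ℝ) ≤ (d ^ T.card * (∏ v ∈ T, max 1 (v δ)) ^ ((d : ℝ) - 1)⁻¹ *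
      ∏ w : InfinitePlace K, (36 * (1 + w δ) ^ ((d : ℝ) - 1)⁻¹) ^ w.mult * d) ^ 2 := by
  obtain ⟨S, hS, hYS⟩ := exists_closed F δ Y hY
  have h1 := closed_card d hd F δ hF T h S hS
  have h2 := card_le_card hYS
  rw [card_product] at h2
  calc (Y.card : ℝ) ≤ (S.card : ℝ) ^ 2 := by rw [sq]; exact_mod_cast h2
    _ ≤ _ := pow_le_pow_left₀ (Nat.cast_nonneg _) h1 2

end Pool.Agent.TH737.HEN
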