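import Pool.Agent.TH737.HEN.Pos
import Pool.Agent.TH737.HEN.Main

/-!
# Closed sets of rational numbers: bad places
-/

set_option autoImplicit false

namespace Pool.Agent.TH737.HEN

open Finset Polynomial NumberField

lemma spread (m : ℝ) (n : ℕ) : ∀ (A : Finset ℝ) (a b : ℝ),
    (∀ u ∈ A, ∀ u' ∈ A, u ≠ u' → m ≤ |u - u'|) → (∀ u ∈ A, a ≤ u ∧ u ≤ b) →
    n < A.card → (n : ℝ) * m ≤ b - a := by
  classical
  induction n with
  | zero =>
    intro A a b _ hab hA
    obtain ⟨u, hu⟩ := card_pos.1 hA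
    obtain ⟨h1, h2⟩ := hab u hu
    simp
    linarith
  | succ n ih =>
    intro A a b hsep hab hA
    have hne : A.Nonempty := card_pos.1 (by omega)
    obtain ⟨c, hc, hmax⟩ := exists_max_image A id hne
    have hc2 := (hab c hc).2
    have hcard : n < (A.erase c).card := by
      rw [card_erase_of_mem hc]; omega
    have h := ih (A.erase c) a (c - m) (fun u hu u' hu' h =>
      hsep u (mem_of_mem_erase hu) u' (mem_of_mem_erase hu') h) ?_ hcard
    · push_cast
      linarith
    · intro u hu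
      obtain ⟨hu1, hu2⟩ := mem_erase.1 hu
      refine ⟨(hab u hu2).1, ?_⟩
      have h1 := hsep c hc u hu2 hu1.symm
      have h2 : u ≤ c := hmax u hu2
      rw [abs_of_nonneg (by linarith)] at h1
      linarith

lemma exists_nodes_cls {ι : Type*} (U : Finset ℝ) (m : ℝ) (hm : 0 < m) (κ : ℝ → ι)
    (R : Finset ι) (hκ : ∀ u ∈ U, κ u ∈ R) (N : ℕ) (hR : R.card ≤ N)
    (hsep : ∀ u ∈ U, ∀ u' ∈ U, u ≠ u' → κ u = κ u' → m ≤ |u - u'|) (d : ℕ) (hd : 1 ≤ d)
    (p : ℕ → ℕ) (hp : ∀ i j, i < j → j ≤ d → p i < p j) (hp0 : p 0 = 0)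
    (hU : N * p d + 1 ≤ U.card) :
    ∃ t : ℕ → ℝ, (∀ i ≤ d, t i ∈ U) ∧
      (∀ i j, i ≤ j → j ≤ d → ((p j : ℝ) - p i) * m ≤ t j - t i) ∧
      (∀ u ∈ U, t 0 ≤ u ∧ u ≤ t d) := by
  classical
  obtain ⟨k, hk⟩ : ∃ k, U.card = k := ⟨_, rfl⟩
  have hk1 : N * p d + 1 ≤ k := hk ▸ hU
  have hUne : U.Nonempty := card_pos.1 (by omega)
  have hN : 1 ≤ N := by
    obtain ⟨u, hu⟩ := hUne
    have := card_pos.2 ⟨_, hκ u hu⟩
    omega
  set e := U.orderEmbOfFin hk with he
  have hmem : ∀ i, e i ∈ U := fun i => Finset.orderEmbOfFin_mem U hk i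
  have hstep : ∀ n : ℕ, ∀ i j : Fin k, (i : ℕ) + n * N ≤ j → (n : ℝ) * m ≤ e j - e i := by
    intro n i j hij
    rcases Nat.eq_zero_or_pos n with rfl | hn
    · have : e i ≤ e j := e.monotone (by rw [Fin.le_def]; omega)
      simpa using this
    set A := (Icc i j).image e with hA
    have hAc : A.card = (j : ℕ) + 1 - i := by
      rw [hA, card_image_of_injective _ e.injective, Fin.card_Icc]
    have hAU : ∀ u ∈ A, u ∈ U := by
      intro u hu
      obtain ⟨x, _, rfl⟩ := mem_image.1 hu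
      exact hmem x
    have hmaps : ∀ u ∈ A, κ u ∈ R := fun u hu => hκ u (hAU u hu)
    have hlt : R.card * n < A.card := by
      rw [hAc]
      have : R.card * n ≤ N * n := Nat.mul_le_mul_right n hR
      have h2 : n * N = N * n := Nat.mul_comm _ _
      omega
    obtain ⟨y, _, hy⟩ := exists_lt_card_fiber_of_mul_lt_card_of_maps_to hmaps hlt
    refine spread m n (A.filter fun x => κ x = y) (e i) (e j) ?_ ?_ hy
    · intro u hu u' hu' hne
      obtain ⟨h1, h2⟩ := mem_filter.1 hu
      obtain ⟨h3, h4⟩ := mem_filter.1 hu'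
      exact hsep u (hAU u h1) u' (hAU u' h3) hne (h2.trans h4.symm)
    · intro u hu
      obtain ⟨h1, _⟩ := mem_filter.1 hu
      obtain ⟨x, hx, rfl⟩ := mem_image.1 h1
      obtain ⟨h3, h4⟩ := mem_Icc.1 hx
      exact ⟨e.monotone h3, e.monotone h4⟩
  have hk0 : k - 1 < k := by omega
  have hlt : ∀ i, i < d → N * p i < k := by
    intro i hi
    have := hp i d hi le_rfl
    have h2 : N * p i ≤ N * p d := Nat.mul_le_mul_left N this.le
    omega
  have hle : ∀ i j, i ≤ j → j ≤ d → p i ≤ p j := by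
    intro i j hij hj
    rcases hij.eq_or_lt with rfl | h
    · exact le_rfl
    · exact (hp i j h hj).le
  refine ⟨fun i => if h : i < d then e ⟨N * p i, hlt i h⟩ else e ⟨k - 1, hk0⟩, ?_, ?_, ?_⟩
  · intro i hi
    dsimp only
    split_ifs
    · exact hmem _
    · exact hmem _
  · intro i j hij hj
    dsimp only
    have hijk : p i ≤ p j := hle i j hij hj
    have hcast : ((p j - p i : ℕ) : ℝ) * m = ((p j : ℝ) - p i) * m := by
      rw [Nat.cast_sub hijk]
    have hsub : (p j - p i) * N = N * p j - N * p i := by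
      rw [Nat.mul_comm, Nat.mul_sub]
    have hmul : N * p i ≤ N * p j := Nat.mul_le_mul_left N hijk
    by_cases hjd : j < d
    · have hid : i < d := by omega
      rw [dif_pos hjd, dif_pos hid]
      have := hstep (p j - p i) ⟨N * p i, hlt i hid⟩ ⟨N * p j, hlt j hjd⟩
        (by show N * p i + (p j - p i) * N ≤ N * p j; rw [hsub]; omega)
      rwa [hcast] at this
    · have hjd' : j = d := by omega
      rw [dif_neg hjd]
      by_cases hid : i < d
      · rw [dif_pos hid]
        have h := hstep (p j - p i) ⟨N * p i, hlt i hid⟩ ⟨k - 1, hk0⟩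
          (by
            show N * p i + (p j - p i) * N ≤ k - 1
            rw [hsub, hjd']
            rw [hjd'] at hmul
            omega)
        rwa [hcast] at h
      · have : i = j := by omega
        subst this
        rw [dif_neg hid]
        simp
  · intro u hu
    have hu' : u ∈ Set.range e := by
      rw [he, Finset.range_orderEmbOfFin]
      exact hu
    obtain ⟨i, rfl⟩ := hu'
    dsimp only
    have h0 : (0 : ℕ) < d := by omega
    rw [dif_pos h0, dif_neg (lt_irrefl d)]
    constructor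
    · exact e.monotone (by rw [Fin.le_def]; simp [hp0])
    · exact e.monotone (by rw [Fin.le_def]; have := i.2; simp; omega)

/-- The real case, with classes. -/
theorem real_card_le_cls {ι : Type*} (d : ℕ) (hd : 2 ≤ d) (U : Finset ℝ) (F : ℝ[X]) (δ : ℝ)
    (hF : F.natDegree = d) (hc : Closed F δ U) (m : ℝ) (hm : 0 < m) (κ : ℝ → ι)
    (R : Finset ι) (hκ : ∀ u ∈ U, κ u ∈ R) (N : ℕ) (hR : R.card ≤ N)
    (hsep : ∀ u ∈ U, ∀ u' ∈ U, u ≠ u' → κ u = κ u' → m ≤ |u - u'|)
    (hlead : 1 ≤ |F.coeff d| * m ^ (d - 1)) (p : ℕ → ℕ)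
    (hp : ∀ i j, i < j → j ≤ d → p i < p j) (hp0 : p 0 = 0)
    (hsmall : (1 + |δ|) / 2 * p d * W d p < 1) : U.card ≤ N * p d := by
  by_contra hcard
  obtain ⟨t, htU, ht, hext⟩ := exists_nodes_cls U m hm κ R hκ N hR hsep d (by omega) p hp hp0
    (by omega)
  have := interp_bound d hd U F δ hF hc m hm p hp hp0 t htU ht hext
  linarith

/-- Closed sets of rational numbers, for a map which is potentially monic and integral outside
`T`. -/
theorem rat_closed_card_cls (d : ℕ) (hd : 2 ≤ d) (F : ℚ[X]) (δ : ℚ) (hF : F.natDegree = d)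
    (T : Finset (FinitePlace ℚ)) (hδ : ∀ v ∈ T, v δ ≤ 1)
    (h : ∀ v : FinitePlace ℚ, v ∉ T → PotInt v F δ) (p : ℕ → ℕ)
    (hp : ∀ i j, i < j → j ≤ d → p i < p j) (hp0 : p 0 = 0)
    (hsmall : (1 + |(δ : ℝ)|) / 2 * p d * W d p < 1)
    (S : Finset ℚ) (hS : Closed F δ S) : S.card ≤ d ^ T.card * p d := by
  classical
  have hF0 : F ≠ 0 := by
    rintro rfl
    simp at hF
    omega
  have hlead : F.leadingCoeff = F.coeff d := by rw [leadingCoeff, hF]
  have hlead0 : F.coeff d ≠ 0 := by rw [← hlead]; exact leadingCoeff_ne_zero.2 hF0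
  have ha : 0 < |((F.coeff d : ℚ) : ℝ)| := by
    rw [abs_pos]; exact_mod_cast hlead0
  obtain ⟨m, hm0, hm⟩ := exists_scale _ ha (d - 1) (by omega)
  have hex := fun v : T => exists_colour_place v.1 d hd F δ hF S hS
  choose R μ hR hμR hμ using hex
  set φ := Rat.castHom ℝ with hφ
  have hcard : (S.image φ).card = S.card := card_image_of_injective _ φ.injective
  rw [← hcard]
  have hinv : ∀ s : ℚ, Function.invFun φ (φ s) = s := Function.leftInverse_invFun φ.injective
  refine real_card_le_cls d hd (S.image φ) (F.map φ) (φ δ) ?_ (closed_map φ hS) m hm0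
    (fun u => fun v : T => μ v (Function.invFun φ u)) (Fintype.piFinset fun v : T => R v) ?_
    (d ^ T.card) ?_ ?_ ?_ p hp hp0 ?_
  · rw [natDegree_map_eq_of_injective φ.injective, hF]
  · intro u hu
    obtain ⟨s, hs, rfl⟩ := mem_image.1 hu
    rw [Fintype.mem_piFinset]
    intro v
    rw [hinv]
    exact hμR v s hs
  · rw [Fintype.card_piFinset]
    have : (∏ v : T, (R v).card) ≤ ∏ _v : T, d := prod_le_prod' fun v _ => hR v
    rwa [prod_const, card_univ, Fintype.card_coe] at this
  · intro u hu u' hu' hne hcol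
    obtain ⟨s, hs, rfl⟩ := mem_image.1 hu
    obtain ⟨t, ht, rfl⟩ := mem_image.1 hu'
    have hst : s ≠ t := fun e => hne (by rw [e])
    set x := (s - t) ^ (d - 1) * F.leadingCoeff with hxdef
    have hx : x ≠ 0 := mul_ne_zero (pow_ne_zero _ (sub_ne_zero.2 hst)) (by rw [hlead]; exact hlead0)
    have h1 : 1 ≤ (∏ w : InfinitePlace ℚ, w x ^ w.mult) * ∏ _v ∈ T, (1 : ℝ) := by
      refine one_le_prod_infinite' x hx T (fun _ => 1) ?_ ?_
      · intro v hv
        have h2 := congrFun hcol ⟨v, hv⟩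
        rw [hinv, hinv] at h2
        have h3 := hμ ⟨v, hv⟩ s hs t ht h2
        rwa [max_eq_left (hδ v hv)] at h3
      · intro v hv
        have := potInt_bound v F δ (by omega) (h v hv) S hS hs ht
        rwa [hF] at this
    rw [prod_const_one, mul_one, Fintype.prod_unique] at h1
    have h2 : (1 : ℝ) ≤ (default : InfinitePlace ℚ) x := by
      by_contra hcon
      push Not at hcon
      have h3 := pow_lt_one₀ (apply_nonneg (default : InfinitePlace ℚ) _) hcon
        (InfinitePlace.mult_ne_zero (w := (default : InfinitePlace ℚ)))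
      linarith
    rw [Rat.infinitePlace_apply, hxdef, hlead] at h2
    push_cast at h2
    rw [abs_mul, abs_pow] at h2
    have h3 : m ^ (d - 1) ≤ |(s : ℝ) - t| ^ (d - 1) := by
      have h4 : |((F.coeff d : ℚ) : ℝ)| * m ^ (d - 1) ≤
          |((F.coeff d : ℚ) : ℝ)| * |(s : ℝ) - t| ^ (d - 1) := by
        rw [hm]; linarith
      exact le_of_mul_le_mul_left h4 ha
    exact (pow_le_pow_iff_left₀ hm0.le (abs_nonneg _) (by omega)).1 h3
  · rw [coeff_map]
    exact hm.ge
  · exact hsmall

end Pool.Agent.TH737.HEN
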