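import Pool.Agent.TH737.HEN.Real

/-!
# Closed sets of complex numbers
-/

set_option autoImplicit false

namespace Pool.Agent.TH737.HEN

open Finset Polynomial

/-- Grid cell of side `2/3`. -/
noncomputable def cell (z : ℂ) : ℤ × ℤ := (⌊3 / 2 * z.re⌋, ⌊3 / 2 * z.im⌋)

lemma cell_dist {z z' : ℂ} (h : cell z = cell z') : ‖z - z'‖ < 1 := by
  simp only [cell, Prod.mk.injEq] at h
  obtain ⟨h1, h2⟩ := h
  have a1 := Int.floor_le (3 / 2 * z.re)
  have a2 := Int.lt_floor_add_one (3 / 2 * z.re)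
  have a3 := Int.floor_le (3 / 2 * z'.re)
  have a4 := Int.lt_floor_add_one (3 / 2 * z'.re)
  have b1 := Int.floor_le (3 / 2 * z.im)
  have b2 := Int.lt_floor_add_one (3 / 2 * z.im)
  have b3 := Int.floor_le (3 / 2 * z'.im)
  have b4 := Int.lt_floor_add_one (3 / 2 * z'.im)
  rw [h1] at a1 a2
  rw [h2] at b1 b2
  have hre : |(z - z').re| < 2 / 3 := by
    rw [abs_lt, Complex.sub_re]; constructor <;> linarith
  have him : |(z - z').im| < 2 / 3 := by
    rw [abs_lt, Complex.sub_im]; constructor <;> linarith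
  have hre2 : (z - z').re ^ 2 < 4 / 9 := by
    have := sq_lt_sq' (abs_lt.1 hre).1 (abs_lt.1 hre).2
    linarith
  have him2 : (z - z').im ^ 2 < 4 / 9 := by
    have := sq_lt_sq' (abs_lt.1 him).1 (abs_lt.1 him).2
    linarith
  have h3 : ‖z - z'‖ ^ 2 < 1 := by
    rw [← Complex.normSq_eq_norm_sq, Complex.normSq_apply]
    nlinarith
  nlinarith [norm_nonneg (z - z')]

lemma card_cells_disc (V : Finset ℂ) (z : ℂ) (r : ℝ) (hr : 0 ≤ r) (hV : ∀ u ∈ V, ‖u - z‖ ≤ r) :
    (((V.image cell).card : ℕ) : ℝ) ≤ (3 * r + 2) ^ 2 := by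
  classical
  have hint : ∀ x : ℝ, ((((Icc ⌊3 / 2 * (x - r)⌋ ⌊3 / 2 * (x + r)⌋).card : ℕ) : ℝ)) ≤ 3 * r + 2 := by
    intro x
    rw [Int.card_Icc]
    have h1 := Int.lt_floor_add_one (3 / 2 * (x - r))
    have h2 := Int.floor_le (3 / 2 * (x + r))
    have h3 : (((⌊3 / 2 * (x + r)⌋ + 1 - ⌊3 / 2 * (x - r)⌋).toNat : ℤ) : ℝ) ≤ 3 * r + 2 := by
      rcases le_total 0 (⌊3 / 2 * (x + r)⌋ + 1 - ⌊3 / 2 * (x - r)⌋) with h | h
      · rw [Int.toNat_of_nonneg h]
        push_cast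
        linarith
      · rw [Int.toNat_of_nonpos h]
        simp
        linarith
    exact_mod_cast h3
  have hsub : V.image cell ⊆ Icc ⌊3 / 2 * (z.re - r)⌋ ⌊3 / 2 * (z.re + r)⌋ ×ˢ
      Icc ⌊3 / 2 * (z.im - r)⌋ ⌊3 / 2 * (z.im + r)⌋ := by
    intro c hc
    obtain ⟨u, hu, rfl⟩ := mem_image.1 hc
    have h := hV u hu
    have h1 := abs_le.1 ((Complex.abs_re_le_norm (u - z)).trans h)
    have h2 := abs_le.1 ((Complex.abs_im_le_norm (u - z)).trans h)
    rw [Complex.sub_re] at h1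
    rw [Complex.sub_im] at h2
    simp only [cell, mem_product, mem_Icc]
    refine ⟨⟨Int.floor_le_floor ?_, Int.floor_le_floor ?_⟩,
      ⟨Int.floor_le_floor ?_, Int.floor_le_floor ?_⟩⟩ <;> linarith [h1.1, h1.2, h2.1, h2.2]
  have hc := card_le_card hsub
  rw [card_product] at hc
  calc (((V.image cell).card : ℕ) : ℝ) ≤ (((Icc ⌊3 / 2 * (z.re - r)⌋ ⌊3 / 2 * (z.re + r)⌋).card *
      (Icc ⌊3 / 2 * (z.im - r)⌋ ⌊3 / 2 * (z.im + r)⌋).card : ℕ) : ℝ) := by exact_mod_cast hc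
    _ ≤ (3 * r + 2) * (3 * r + 2) := by
        push_cast
        exact mul_le_mul (hint _) (hint _) (by positivity) (by linarith)
    _ = _ := by ring

lemma pow_card_le_prod_map {ι : Type*} (s : Multiset ι) (f : ι → ℝ) (b : ℝ) (hb : 0 ≤ b)
    (h : ∀ x ∈ s, b ≤ f x) : b ^ s.card ≤ (s.map f).prod := by
  induction s using Multiset.induction with
  | empty => simp
  | cons a s ih =>
    rw [Multiset.card_cons, pow_succ', Multiset.map_cons, Multiset.prod_cons]
    exact mul_le_mul (h a (Multiset.mem_cons_self _ _))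
      (ih fun x hx => h x (Multiset.mem_cons_of_mem hx)) (by positivity)
      (hb.trans (h a (Multiset.mem_cons_self _ _)))

lemma pow_card_lt_prod_map {ι : Type*} (s : Multiset ι) (f : ι → ℝ) (b : ℝ) (hb : 0 < b)
    (h : ∀ x ∈ s, b < f x) (hs : 0 < s.card) : b ^ s.card < (s.map f).prod := by
  induction s using Multiset.induction with
  | empty => simp at hs
  | cons a s ih =>
    rw [Multiset.card_cons, pow_succ', Multiset.map_cons, Multiset.prod_cons]
    have h1 := pow_card_le_prod_map s f b hb.le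
      (fun x hx => (h x (Multiset.mem_cons_of_mem hx)).le)
    exact mul_lt_mul (h a (Multiset.mem_cons_self _ _)) h1 (by positivity)
      (hb.trans (h a (Multiset.mem_cons_self _ _))).le

lemma norm_eval_sub (G : ℂ[X]) (hG : ‖G.leadingCoeff‖ = 1) (hd : 1 ≤ G.natDegree) (c u : ℂ) :
    ‖G.eval u - c‖ = (((G - C c).roots).map fun ρ => ‖u - ρ‖).prod := by
  have hlead : (G - C c).leadingCoeff = G.leadingCoeff := by
    refine leadingCoeff_sub_of_degree_lt ?_
    refine lt_of_le_of_lt degree_C_le ?_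
    rw [degree_eq_natDegree (by rintro rfl; simp at hd)]
    exact_mod_cast hd
  have hs : (G - C c).Splits := IsAlgClosed.splits _
  have := hs.eval_eq_prod_roots u
  rw [eval_sub, eval_C] at this
  rw [this, norm_mul, hlead, hG, one_mul]
  have e := map_multiset_prod (normHom (α := ℂ)) (Multiset.map (fun ρ => u - ρ) (G - C c).roots)
  rw [Multiset.map_map] at e
  exact e

/-- diameter bound for values of a closed set -/
lemma closed_eval_diff {U : Finset ℂ} {F : ℂ[X]} {δ : ℂ} (hc : Closed F δ U) {D : ℝ}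
    (hD : ∀ u ∈ U, ∀ u' ∈ U, ‖u - u'‖ ≤ D) {u u' : ℂ} (hu : u ∈ U) (hu' : u' ∈ U) :
    ‖F.eval u - F.eval u'‖ ≤ (1 + ‖δ‖) * D := by
  obtain ⟨p, hp, q, hq, h⟩ := hc u hu
  obtain ⟨p', hp', q', hq', h'⟩ := hc u' hu'
  rw [← h, ← h']
  have : p + δ * q - (p' + δ * q') = (p - p') + δ * (q - q') := by ring
  rw [this]
  calc _ ≤ ‖p - p'‖ + ‖δ * (q - q')‖ := norm_add_le _ _
    _ ≤ D + ‖δ‖ * D := by
        rw [norm_mul]
        gcongr
        · exact hD _ hp _ hp'
        · exact hD _ hq _ hq'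
    _ = _ := by ring

lemma exists_diam (U : Finset ℂ) (hU : U.Nonempty) :
    ∃ p ∈ U, ∃ q ∈ U, ∀ u ∈ U, ∀ u' ∈ U, ‖u - u'‖ ≤ ‖p - q‖ := by
  obtain ⟨x, hx, hmax⟩ := exists_max_image (U ×ˢ U) (fun x => ‖x.1 - x.2‖) (hU.product hU)
  rw [mem_product] at hx
  exact ⟨x.1, hx.1, x.2, hx.2, fun u hu u' hu' => hmax (u, u') (mem_product.2 ⟨hu, hu'⟩)⟩

/-- The covering lemma. -/
theorem exists_cover (d : ℕ) (hd : 2 ≤ d) (U : Finset ℂ) (G : ℂ[X]) (δ : ℂ)
    (hG : ‖G.leadingCoeff‖ = 1) (hdeg : G.natDegree = d) (hc : Closed G δ U)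
    (B : ℝ) (hB : 1 ≤ B) (hBA : 1 + ‖δ‖ ≤ B ^ (d - 1)) :
    ∃ (Z : Finset ℂ) (r : ℝ), (∀ u ∈ U, ∃ z ∈ Z, ‖u - z‖ ≤ r) ∧
      ((Z.card ≤ d ∧ r = 4 * B) ∨ (Z.card ≤ 1 ∧ r = 16 * B)) := by
  classical
  rcases U.eq_empty_or_nonempty with rfl | hU
  · exact ⟨∅, 4 * B, by simp, Or.inl ⟨by simp, rfl⟩⟩
  obtain ⟨p, hp, q, hq, hD⟩ := exists_diam U hU
  set D := ‖p - q‖ with hDdef
  set A := 1 + ‖δ‖ with hA
  have hA1 : 1 ≤ A := by rw [hA]; linarith [norm_nonneg δ]
  have h4B : 4 * A ≤ (4 * B) ^ (d - 1) := by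
    rw [mul_pow]
    have h1 : (4 : ℝ) ≤ 4 ^ (d - 1) := by
      calc (4 : ℝ) = 4 ^ 1 := (pow_one _).symm
        _ ≤ 4 ^ (d - 1) := pow_le_pow_right₀ (by norm_num) (by omega)
    exact mul_le_mul h1 hBA (by linarith) (by positivity)
  by_cases hDA : D ≤ 16 * B
  · exact ⟨{p}, 16 * B, fun u hu => ⟨p, by simp, (hD u hu p hp).trans hDA⟩,
      Or.inr ⟨by simp, rfl⟩⟩
  push Not at hDA
  set R := (G - C (G.eval p)).roots with hR
  have hnorm : ∀ u ∈ U, (R.map fun ρ => ‖u - ρ‖).prod ≤ A * D := by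
    intro u hu
    rw [hR, ← norm_eval_sub G hG (by omega)]
    exact closed_eval_diff hc hD hu hp
  have hRcard : R.card = d := by
    have hs : (G - C (G.eval p)).Splits := IsAlgClosed.splits _
    have h1 : (G - C (G.eval p)).natDegree = d := by
      rw [natDegree_sub_C, hdeg]
    rw [hR, ← hs.natDegree_eq_card_roots, h1]
  have hclose : ∀ u ∈ U, ∃ ρ ∈ R, ‖u - ρ‖ ≤ 4 * B := by
    intro u hu
    by_contra hcon
    push Not at hcon
    -- a far point
    obtain ⟨z, hz, hzu⟩ : ∃ z ∈ U, D / 2 ≤ ‖z - u‖ := by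
      by_contra hcon2
      push Not at hcon2
      have h1 := hcon2 p hp
      have h2 := hcon2 q hq
      have h3 : D ≤ ‖p - u‖ + ‖q - u‖ := by
        rw [hDdef]
        calc ‖p - q‖ = ‖(p - u) - (q - u)‖ := by congr 1; ring
          _ ≤ _ := norm_sub_le _ _
      linarith
    obtain ⟨ρ, hρ, hρu⟩ : ∃ ρ ∈ R, D / 4 ≤ ‖u - ρ‖ := by
      by_contra hcon2
      push Not at hcon2
      have h1 : ∀ ρ ∈ R, D / 4 ≤ ‖z - ρ‖ := by
        intro ρ hρ
        have h2 := hcon2 ρ hρ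
        have h3 : ‖z - u‖ ≤ ‖z - ρ‖ + ‖u - ρ‖ := by
          calc ‖z - u‖ = ‖(z - ρ) - (u - ρ)‖ := by congr 1; ring
            _ ≤ _ := norm_sub_le _ _
        linarith
      have h2 := pow_card_le_prod_map R (fun ρ => ‖z - ρ‖) (D / 4) (by linarith) h1
      rw [hRcard] at h2
      have h3 := hnorm z hz
      have h4 : (D / 4) ^ d = (D / 4) * (D / 4) ^ (d - 1) := by
        rw [← pow_succ']; congr 1; omega
      have h5 : 4 * B < D / 4 := by linarith
      have h6 : (4 * A) < (D / 4) ^ (d - 1) := by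
        refine lt_of_le_of_lt h4B ?_
        exact pow_lt_pow_left₀ h5 (by linarith) (by omega)
      have h7 : 0 < D / 4 := by linarith
      nlinarith [mul_lt_mul_of_pos_left h6 h7]
    obtain ⟨R', hR'⟩ := Multiset.exists_cons_of_mem hρ
    have h2 := hnorm u hu
    rw [hR', Multiset.map_cons, Multiset.prod_cons] at h2
    have hcard' : R'.card = d - 1 := by
      have := congrArg Multiset.card hR'
      rw [hRcard, Multiset.card_cons] at this
      omega
    have h5 : 4 * A < (R'.map fun ρ => ‖u - ρ‖).prod := by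
      have h4 := pow_card_lt_prod_map R' (fun ρ => ‖u - ρ‖) (4 * B) (by linarith)
        (fun ρ' hρ' => hcon ρ' (by rw [hR']; exact Multiset.mem_cons_of_mem hρ'))
        (by omega)
      rw [hcard'] at h4
      exact lt_of_le_of_lt h4B h4
    have h8 : 0 < D / 4 := by linarith
    nlinarith [mul_lt_mul_of_pos_left h5 h8, mul_le_mul_of_nonneg_right hρu
      (show (0 : ℝ) ≤ (R'.map fun ρ => ‖u - ρ‖).prod by linarith)]
  refine ⟨R.toFinset, 4 * B, ?_, Or.inl ⟨?_, rfl⟩⟩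
  · intro u hu
    obtain ⟨ρ, hρ, h⟩ := hclose u hu
    exact ⟨ρ, by simpa using hρ, h⟩
  · rw [← hRcard]
    exact Multiset.toFinset_card_le R

lemma card_image_le_of_cover {α β : Type*} [DecidableEq α] [DecidableEq β] (U : Finset α)
    (f : α → β) (Z : Finset ℂ) (P : ℂ → α → Prop) (B : ℝ)
    (hZ : ∀ u ∈ U, ∃ z ∈ Z, P z u)
    (hB : ∀ z ∈ Z, ∀ V : Finset α, (∀ u ∈ V, u ∈ U ∧ P z u) → ((V.image f).card : ℝ) ≤ B) :
    ((U.image f).card : ℝ) ≤ Z.card * B := by
  classical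
  have hsub : U.image f ⊆ Z.biUnion (fun z => (U.filter fun u => P z u).image f) := by
    intro c hc'
    obtain ⟨u, hu, rfl⟩ := mem_image.1 hc'
    obtain ⟨z, hz, h⟩ := hZ u hu
    rw [mem_biUnion]
    exact ⟨z, hz, mem_image_of_mem _ (mem_filter.2 ⟨hu, h⟩)⟩
  have h1 : ((U.image f).card : ℝ) ≤ ∑ z ∈ Z, (((U.filter fun u => P z u).image f).card : ℝ) := by
    have := (card_le_card hsub).trans card_biUnion_le
    exact_mod_cast this
  have h2 : ∑ z ∈ Z, (((U.filter fun u => P z u).image f).card : ℝ) ≤ ∑ z ∈ Z, B := by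
    refine sum_le_sum fun z hz => hB z hz _ fun u hu => ?_
    exact mem_filter.1 hu
  rw [sum_const, nsmul_eq_mul] at h2
  exact h1.trans h2

lemma card_cells_disc_scaled (V : Finset ℂ) (z : ℂ) (r c : ℝ) (hr : 0 ≤ r) (hc : 0 ≤ c)
    (hV : ∀ u ∈ V, ‖u - z‖ ≤ r) :
    (((V.image fun u => cell ((c : ℂ) * u)).card : ℕ) : ℝ) ≤ (3 * (c * r) + 2) ^ 2 := by
  classical
  have h := card_cells_disc (V.image fun u => (c : ℂ) * u) ((c : ℂ) * z) (c * r) (by positivity) ?_
  · rwa [image_image] at h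
  · intro x hx
    obtain ⟨u, hu, rfl⟩ := mem_image.1 hx
    rw [← mul_sub, norm_mul, Complex.norm_real, Real.norm_of_nonneg hc]
    exact mul_le_mul_of_nonneg_left (hV u hu) hc

/-- Number of cells, complex case. -/
theorem card_cells_le (d : ℕ) (hd : 2 ≤ d) (U : Finset ℂ) (G : ℂ[X]) (δ : ℂ)
    (hG : ‖G.leadingCoeff‖ = 1) (hdeg : G.natDegree = d) (hc : Closed G δ U)
    (B : ℝ) (hB : 1 ≤ B) (hBA : 1 + ‖δ‖ ≤ B ^ (d - 1)) (c : ℝ) (hc1 : 1 ≤ c) :
    (((U.image fun u => cell ((c : ℂ) * u)).card : ℕ) : ℝ) ≤ (36 * (c * B)) ^ 2 * d := by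
  classical
  obtain ⟨Z, r, hZ, h⟩ := exists_cover d hd U G δ hG hdeg hc B hB hBA
  have hd2 : (2 : ℝ) ≤ d := by exact_mod_cast hd
  have hr : 0 ≤ r := by
    rcases h with ⟨_, h⟩ | ⟨_, h⟩ <;> rw [h] <;> positivity
  have h1 := card_image_le_of_cover U (fun u => cell ((c : ℂ) * u)) Z (fun z u => ‖u - z‖ ≤ r)
    ((3 * (c * r) + 2) ^ 2) hZ
    (fun z _ V hV => card_cells_disc_scaled V z r c hr (by linarith) fun u hu => (hV u hu).2)
  refine h1.trans ?_
  have hcB : 1 ≤ c * B := one_le_mul_of_one_le_of_one_le hc1 hB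
  set A := c * B with hA
  rcases h with ⟨hc1, h⟩ | ⟨hc1, h⟩
  · have h3 : (Z.card : ℝ) ≤ d := by exact_mod_cast hc1
    have h4 : (3 * (c * r) + 2) ^ 2 ≤ (36 * A) ^ 2 := by
      have e : c * r = 4 * A := by rw [h, hA]; ring
      rw [e]; nlinarith
    calc (Z.card : ℝ) * (3 * (c * r) + 2) ^ 2 ≤ d * (36 * A) ^ 2 := by gcongr
      _ = _ := by ring
  · have h3 : (Z.card : ℝ) ≤ 1 := by exact_mod_cast hc1
    have h4 : (3 * (c * r) + 2) ^ 2 ≤ 2500 * A ^ 2 := by
      have e : c * r = 16 * A := by rw [h, hA]; ring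
      rw [e]; nlinarith
    calc (Z.card : ℝ) * (3 * (c * r) + 2) ^ 2 ≤ 1 * (2500 * A ^ 2) := by gcongr
      _ ≤ (36 * A) ^ 2 * 2 := by nlinarith
      _ ≤ _ := by gcongr

lemma card_floor_interval (V : Finset ℝ) (z r : ℝ) (hr : 0 ≤ r) (hV : ∀ u ∈ V, |u - z| ≤ r) :
    ((V.image fun x : ℝ => ⌊x⌋).card : ℝ) ≤ 2 * r + 2 := by
  classical
  have hsub : (V.image fun x : ℝ => ⌊x⌋) ⊆ Icc ⌊z - r⌋ ⌊z + r⌋ := by
    intro c hc
    obtain ⟨u, hu, rfl⟩ := mem_image.1 hc
    have h1 := abs_le.1 (hV u hu)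
    rw [mem_Icc]
    exact ⟨Int.floor_le_floor (by linarith [h1.1]), Int.floor_le_floor (by linarith [h1.2])⟩
  have hc := card_le_card hsub
  rw [Int.card_Icc] at hc
  have h1 := Int.lt_floor_add_one (z - r)
  have h2 := Int.floor_le (z + r)
  have h3 : (((⌊z + r⌋ + 1 - ⌊z - r⌋).toNat : ℤ) : ℝ) ≤ 2 * r + 2 := by
    rcases le_total 0 (⌊z + r⌋ + 1 - ⌊z - r⌋) with h | h
    · rw [Int.toNat_of_nonneg h]
      push_cast
      linarith
    · rw [Int.toNat_of_nonpos h]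
      simp
      linarith
  have h4 : ((V.image fun x : ℝ => ⌊x⌋).card : ℝ) ≤ (((⌊z + r⌋ + 1 - ⌊z - r⌋).toNat : ℕ) : ℝ) := by
    exact_mod_cast hc
  refine h4.trans ?_
  exact_mod_cast h3

lemma card_floor_interval_scaled (V : Finset ℝ) (z r c : ℝ) (hr : 0 ≤ r) (hc : 0 ≤ c)
    (hV : ∀ u ∈ V, |u - z| ≤ r) :
    ((V.image fun x : ℝ => ⌊c * x⌋).card : ℝ) ≤ 2 * (c * r) + 2 := by
  classical
  have h := card_floor_interval (V.image fun u => c * u) (c * z) (c * r) (by positivity) ?_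
  · rwa [image_image] at h
  · intro x hx
    obtain ⟨u, hu, rfl⟩ := mem_image.1 hx
    rw [← mul_sub, abs_mul, abs_of_nonneg hc]
    exact mul_le_mul_of_nonneg_left (hV u hu) hc

/-- Number of cells, real case. -/
theorem card_floor_le (d : ℕ) (hd : 2 ≤ d) (U : Finset ℝ) (G : ℝ[X]) (δ : ℝ)
    (hG : |G.leadingCoeff| = 1) (hdeg : G.natDegree = d) (hc : Closed G δ U)
    (B : ℝ) (hB : 1 ≤ B) (hBA : 1 + |δ| ≤ B ^ (d - 1)) (c : ℝ) (hc1 : 1 ≤ c) :
    ((U.image fun x : ℝ => ⌊c * x⌋).card : ℝ) ≤ 36 * (c * B) * d := by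
  classical
  have hinj : Function.Injective (Complex.ofRealHom) := Complex.ofRealHom.injective
  have hcl : Closed (G.map Complex.ofRealHom) (Complex.ofRealHom δ)
      (U.image Complex.ofRealHom) := by
    intro s hs
    obtain ⟨t, ht, rfl⟩ := mem_image.1 hs
    obtain ⟨p, hp, q, hq, h⟩ := hc t ht
    refine ⟨_, mem_image_of_mem _ hp, _, mem_image_of_mem _ hq, ?_⟩
    rw [eval_map_apply, ← h, map_add, map_mul]
  have hnorm : ‖Complex.ofRealHom δ‖ = |δ| := by simp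
  obtain ⟨Z, r, hZ, h⟩ := exists_cover d hd _ _ _ (by
    rw [leadingCoeff_map]; simpa using hG) (by rw [natDegree_map_eq_of_injective hinj, hdeg]) hcl
    B hB (by rw [hnorm]; exact hBA)
  have hd2 : (2 : ℝ) ≤ d := by exact_mod_cast hd
  have hr : 0 ≤ r := by
    rcases h with ⟨_, h⟩ | ⟨_, h⟩ <;> rw [h] <;> positivity
  have h1 := card_image_le_of_cover U (fun x : ℝ => ⌊c * x⌋) Z (fun z u => |u - z.re| ≤ r)
    (2 * (c * r) + 2)
    (by
      intro u hu
      obtain ⟨z, hz, hzu⟩ := hZ _ (mem_image_of_mem _ hu)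
      refine ⟨z, hz, ?_⟩
      have h2 := (Complex.abs_re_le_norm _).trans hzu
      rw [Complex.sub_re] at h2
      exact h2)
    (fun z _ V hV => card_floor_interval_scaled V z.re r c hr (by linarith)
      fun u hu => (hV u hu).2)
  refine h1.trans ?_
  have hcB : 1 ≤ c * B := one_le_mul_of_one_le_of_one_le hc1 hB
  set A := c * B with hA
  rcases h with ⟨hc1, h⟩ | ⟨hc1, h⟩
  · have h3 : (Z.card : ℝ) ≤ d := by exact_mod_cast hc1
    have h4 : 2 * (c * r) + 2 ≤ 36 * A := by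
      have e : c * r = 4 * A := by rw [h, hA]; ring
      rw [e]; linarith
    have h5 : 0 ≤ 2 * (c * r) + 2 := by positivity
    calc (Z.card : ℝ) * (2 * (c * r) + 2) ≤ d * (36 * A) := by gcongr
      _ = _ := by ring
  · have h3 : (Z.card : ℝ) ≤ 1 := by exact_mod_cast hc1
    have h4 : 2 * (c * r) + 2 ≤ 34 * A := by
      have e : c * r = 16 * A := by rw [h, hA]; ring
      rw [e]; linarith
    have h5 : 0 ≤ 2 * (c * r) + 2 := by positivity
    calc (Z.card : ℝ) * (2 * (c * r) + 2) ≤ 1 * (34 * A) := by gcongr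
      _ ≤ 36 * A * 1 := by linarith
      _ ≤ _ := by gcongr; linarith

lemma card_near (U : Finset ℂ) (m : ℝ) (hm : 0 < m)
    (hsep : ∀ u ∈ U, ∀ u' ∈ U, u ≠ u' → m ≤ ‖u - u'‖) (z : ℂ) :
    (U.filter fun u => ‖u - z‖ < 4 / 3 * m).card ≤ 16 := by
  classical
  have hinj : Set.InjOn (fun u : ℂ => cell ((u - z) / (m : ℂ)))
      (U.filter fun u => ‖u - z‖ < 4 / 3 * m : Finset ℂ) := by
    intro u hu u' hu' h
    rw [mem_coe, mem_filter] at hu hu'
    by_contra hne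
    have h1 := hsep u hu.1 u' hu'.1 hne
    have h2 := cell_dist h
    have h3 : (u - z) / (m : ℂ) - (u' - z) / (m : ℂ) = (u - u') / (m : ℂ) := by ring
    rw [h3, norm_div, Complex.norm_real, Real.norm_of_nonneg hm.le, div_lt_one hm] at h2
    linarith
  have hmaps : ∀ u ∈ (U.filter fun u => ‖u - z‖ < 4 / 3 * m),
      cell ((u - z) / (m : ℂ)) ∈ (Icc (-2 : ℤ) 1) ×ˢ (Icc (-2 : ℤ) 1) := by
    intro u hu
    rw [mem_filter] at hu
    have h1 : ‖(u - z) / (m : ℂ)‖ < 4 / 3 := by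
      rw [norm_div, Complex.norm_real, Real.norm_of_nonneg hm.le, div_lt_iff₀ hm]
      exact hu.2
    have h2 := abs_lt.1 (lt_of_le_of_lt (Complex.abs_re_le_norm _) h1)
    have h3 := abs_lt.1 (lt_of_le_of_lt (Complex.abs_im_le_norm _) h1)
    simp only [cell, mem_product, mem_Icc]
    refine ⟨⟨?_, ?_⟩, ⟨?_, ?_⟩⟩
    · rw [Int.le_floor]; push_cast; linarith [h2.1]
    · rw [← Int.lt_add_one_iff, Int.floor_lt]; push_cast; linarith [h2.2]
    · rw [Int.le_floor]; push_cast; linarith [h3.1]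
    · rw [← Int.lt_add_one_iff, Int.floor_lt]; push_cast; linarith [h3.2]
  have := card_le_card_of_injOn _ hmaps hinj
  refine this.trans ?_
  rw [card_product]
  simp

lemma prod_far_lower {ι : Type*} (s : Finset ι) (f : ι → ℝ) (m : ℝ) (hm : 0 < m)
    (h1 : ∀ i ∈ s, m ≤ f i) (h2 : (s.filter fun i => f i < 4 / 3 * m).card ≤ 15)
    (hs : 15 ≤ s.card) :
    m ^ s.card * (4 / 3 : ℝ) ^ (s.card - 15) ≤ ∏ i ∈ s, f i := by
  classical
  rw [← prod_filter_mul_prod_filter_not s (fun i => f i < 4 / 3 * m)]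
  have a1 : m ^ (s.filter fun i => f i < 4 / 3 * m).card ≤
      ∏ i ∈ s.filter (fun i => f i < 4 / 3 * m), f i := by
    rw [← prod_const]
    exact prod_le_prod (fun _ _ => hm.le) fun i hi => h1 i (mem_filter.1 hi).1
  have a2 : (4 / 3 * m) ^ (s.filter fun i => ¬ f i < 4 / 3 * m).card ≤
      ∏ i ∈ s.filter (fun i => ¬ f i < 4 / 3 * m), f i := by
    rw [← prod_const]
    exact prod_le_prod (fun _ _ => by positivity) fun i hi => not_lt.1 (mem_filter.1 hi).2
  have a3 := card_filter_add_card_filter_not (s := s) (fun i => f i < 4 / 3 * m)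
  have a4 : s.card - 15 ≤ (s.filter fun i => ¬ f i < 4 / 3 * m).card := by omega
  calc m ^ s.card * (4 / 3 : ℝ) ^ (s.card - 15)
      ≤ m ^ s.card * (4 / 3 : ℝ) ^ (s.filter fun i => ¬ f i < 4 / 3 * m).card := by
        gcongr
        norm_num
    _ = m ^ (s.filter fun i => f i < 4 / 3 * m).card *
        (4 / 3 * m) ^ (s.filter fun i => ¬ f i < 4 / 3 * m).card := by
        rw [← a3, pow_add, mul_pow]; ring
    _ ≤ _ := mul_le_mul a1 a2 (by positivity) (le_trans (by positivity) a1)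

/-- The complex case: separated closed sets. -/
theorem cplx_card_le (d : ℕ) (hd : 16 ≤ d) (U : Finset ℂ) (F : ℂ[X]) (δ : ℂ)
    (hF : F.natDegree = d) (hc : Closed F δ U) (m : ℝ) (hm : 0 < m)
    (hsep : ∀ u ∈ U, ∀ u' ∈ U, u ≠ u' → m ≤ ‖u - u'‖)
    (hlead : 1 ≤ ‖F.coeff d‖ * m ^ (d - 1))
    (hsmall : 2 * (d + 1) * (1 + ‖δ‖) < (4 / 3 : ℝ) ^ (d - 16)) : U.card ≤ d := by
  classical
  by_contra hcard
  push Not at hcard
  have hU : U.Nonempty := card_pos.1 (by omega)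
  obtain ⟨p, hp, q, hq, hD⟩ := exists_diam U hU
  set D := ‖p - q‖ with hDdef
  have hpq : p ≠ q := by
    rintro rfl
    obtain ⟨u, hu, u', hu', hne⟩ := one_lt_card.1 (show 1 < U.card by omega)
    have h1 := hD u hu u' hu'
    have h2 := hsep u hu u' hu' hne
    rw [hDdef, sub_self, norm_zero] at h1
    linarith
  have hDm : m ≤ D := hsep p hp q hq hpq
  have hD0 : 0 < D := lt_of_lt_of_le hm hDm
  obtain ⟨I, hI1, hI2, hI3⟩ := exists_subsuperset_card_eq (s := {p, q}) (t := U) (n := d + 1)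
    (by intro x hx; simp only [mem_insert, mem_singleton] at hx; rcases hx with rfl | rfl <;> assumption)
    (by rw [card_pair hpq]; omega) (by omega)
  have hpI : p ∈ I := hI1 (by simp)
  have hqI : q ∈ I := hI1 (by simp)
  set P := F - C (F.eval p) with hP
  have hPc : P.coeff d = F.coeff d := by
    rw [hP, coeff_sub, coeff_C, if_neg (by omega), sub_zero]
  have hPdeg : P.degree < (I.card : WithBot ℕ) := by
    rw [hI3]
    refine lt_of_le_of_lt (degree_sub_le _ _) ?_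
    refine max_lt ?_ ?_
    · refine lt_of_le_of_lt degree_le_natDegree ?_
      rw [hF]
      exact_mod_cast Nat.lt_succ_self d
    · refine lt_of_le_of_lt degree_C_le ?_
      exact_mod_cast Nat.succ_pos d
  have hL := Lagrange.coeff_eq_sum (v := fun x : ℂ => x) (fun x _ y _ h => h) hPdeg
  rw [hI3, Nat.add_sub_cancel, hPc] at hL
  have hpow : (0 : ℝ) < (4 / 3 : ℝ) ^ (d - 16) := by positivity
  have hbound : ‖F.coeff d‖ ≤ ∑ i ∈ I, ((1 + ‖δ‖) * D) /
      (D / 2 * (m ^ (d - 1) * (4 / 3 : ℝ) ^ (d - 16))) := by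
    rw [hL]
    refine (norm_sum_le _ _).trans (sum_le_sum fun i hi => ?_)
    rw [norm_div, norm_prod]
    have hval : ‖eval i P‖ ≤ (1 + ‖δ‖) * D := by
      rw [hP, eval_sub, eval_C]
      exact closed_eval_diff hc hD (hI2 hi) hp
    -- a far point
    obtain ⟨r, hrI, hri⟩ : ∃ r ∈ I, D / 2 ≤ ‖i - r‖ := by
      by_contra hcon
      push Not at hcon
      have h1 := hcon p hpI
      have h2 := hcon q hqI
      have h3 : D ≤ ‖i - p‖ + ‖i - q‖ := by
        rw [hDdef]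
        calc ‖p - q‖ = ‖(i - q) - (i - p)‖ := by congr 1; ring
          _ ≤ ‖i - q‖ + ‖i - p‖ := norm_sub_le _ _
          _ = _ := add_comm _ _
      linarith
    have hrne : r ≠ i := by
      rintro rfl
      rw [sub_self, norm_zero] at hri
      linarith
    have hr' : r ∈ I.erase i := mem_erase.2 ⟨hrne, hrI⟩
    have hcard2 : ((I.erase i).erase r).card = d - 1 := by
      rw [card_erase_of_mem hr', card_erase_of_mem hi, hI3]
      omega
    have hprod : D / 2 * (m ^ (d - 1) * (4 / 3 : ℝ) ^ (d - 16)) ≤ ∏ j ∈ I.erase i, ‖i - j‖ := by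
      rw [← mul_prod_erase _ _ hr']
      refine mul_le_mul hri ?_ (by positivity) (norm_nonneg _)
      have h1 := prod_far_lower ((I.erase i).erase r) (fun j => ‖i - j‖) m hm ?_ ?_ (by omega)
      · rw [hcard2] at h1
        have h2 : d - 1 - 15 = d - 16 := by omega
        rwa [h2] at h1
      · intro j hj
        have h2 := mem_of_mem_erase hj
        exact hsep i (hI2 hi) j (hI2 (mem_of_mem_erase h2)) (ne_of_mem_erase h2).symm
      · have h2 : (((I.erase i).erase r).filter fun j => ‖i - j‖ < 4 / 3 * m) ⊆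
            (U.filter fun u => ‖u - i‖ < 4 / 3 * m).erase i := by
          intro j hj
          rw [mem_filter] at hj
          have h3 := mem_of_mem_erase hj.1
          rw [mem_erase, mem_filter]
          refine ⟨ne_of_mem_erase h3, hI2 (mem_of_mem_erase h3), ?_⟩
          rw [norm_sub_rev]
          exact hj.2
        have h3 := card_le_card h2
        have h4 := card_near U m hm hsep i
        rw [card_erase_of_mem] at h3
        · omega
        · rw [mem_filter]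
          refine ⟨hI2 hi, ?_⟩
          rw [sub_self, norm_zero]
          positivity
    gcongr
  rw [sum_const, hI3, nsmul_eq_mul] at hbound
  have hmm : 0 < m ^ (d - 1) := by positivity
  have hfin : ‖F.coeff d‖ * m ^ (d - 1) ≤ 2 * (d + 1) * (1 + ‖δ‖) / (4 / 3 : ℝ) ^ (d - 16) := by
    calc ‖F.coeff d‖ * m ^ (d - 1) ≤ ((d + 1 : ℕ) : ℝ) * ((1 + ‖δ‖) * D /
        (D / 2 * (m ^ (d - 1) * (4 / 3 : ℝ) ^ (d - 16)))) * m ^ (d - 1) := by gcongr
      _ = _ := by
        push_cast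
        field_simp
  have : 2 * (d + 1) * (1 + ‖δ‖) / (4 / 3 : ℝ) ^ (d - 16) < 1 := by
    rw [div_lt_one hpow]
    exact hsmall
  linarith

end Pool.Agent.TH737.HEN
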