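import Pool.Agent.TH737.HEN.Cplx

/-!
# Henon maps over number fields: closed sets and potentially integral maps
-/

set_option autoImplicit false

namespace Pool.Agent.TH737.HEN

open Finset Polynomial NumberField

universe u

/-- The generalized Henon map `(x, y) ↦ (y, F(y) - δ x)`. -/
def henon {K : Type*} [Field K] (F : K[X]) (δ : K) (P : K × K) : K × K :=
  (P.2, F.eval P.2 - δ * P.1)

lemma exists_closed {K : Type*} [Field K] (F : K[X]) (δ : K) (Y : Finset (K × K))
    (hY : ∀ P ∈ Y, ∃ n : ℕ, 0 < n ∧ (henon F δ)^[n] P = P) :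
    ∃ S : Finset K, Closed F δ S ∧ Y ⊆ S ×ˢ S := by
  classical
  choose! n hn hp using hY
  have hper : ∀ P ∈ Y, Function.IsPeriodicPt (henon F δ) (n P) P := fun P hP => hp P hP
  set S : Finset K := Y.biUnion (fun P => (range (n P)).image
    fun k => ((henon F δ)^[k] P).1) with hS
  have hmem : ∀ P ∈ Y, ∀ k, ((henon F δ)^[k] P).1 ∈ S := by
    intro P hP k
    rw [hS, mem_biUnion]
    refine ⟨P, hP, mem_image.2 ⟨k % n P, mem_range.2 (Nat.mod_lt _ (hn P hP)), ?_⟩⟩
    rw [(hper P hP).iterate_mod_apply]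
  have hstep : ∀ P : K × K, ∀ k, ((henon F δ)^[k + 1] P).1 = ((henon F δ)^[k] P).2 := by
    intro P k
    rw [Function.iterate_succ_apply']
    rfl
  have hstep2 : ∀ P : K × K, ∀ k, ((henon F δ)^[k + 2] P).1 + δ * ((henon F δ)^[k] P).1 =
      F.eval ((henon F δ)^[k + 1] P).1 := by
    intro P k
    rw [hstep P (k + 1), hstep P k, Function.iterate_succ_apply']
    simp [henon]
  refine ⟨S, ?_, ?_⟩
  · intro s hs
    rw [hS, mem_biUnion] at hs
    obtain ⟨P, hP, hs⟩ := hs
    obtain ⟨k, hk, rfl⟩ := mem_image.1 hs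
    have hn1 := hn P hP
    refine ⟨_, hmem P hP (k + 1), _, hmem P hP (k + n P - 1), ?_⟩
    have h := hstep2 P (k + n P - 1)
    have e1 : k + n P - 1 + 2 = (k + 1) + n P := by omega
    have e2 : k + n P - 1 + 1 = k + n P := by omega
    have e3 : (henon F δ)^[k + 1 + n P] P = (henon F δ)^[k + 1] P := by
      rw [Function.iterate_add_apply, (hper P hP).eq]
    have e4 : (henon F δ)^[k + n P] P = (henon F δ)^[k] P := by
      rw [Function.iterate_add_apply, (hper P hP).eq]
    rw [e1, e2, e3, e4] at h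
    exact h
  · intro P hP
    rw [mem_product]
    refine ⟨hmem P hP 0, ?_⟩
    have := hmem P hP 1
    rwa [hstep P 0] at this

lemma closed_map {K L : Type*} [Field K] [Field L] [DecidableEq L] (φ : K →+* L) {F : K[X]} {δ : K}
    {S : Finset K} (hS : Closed F δ S) : Closed (F.map φ) (φ δ) (S.image φ) := by
  intro s hs
  obtain ⟨t, ht, rfl⟩ := mem_image.1 hs
  obtain ⟨p, hp, q, hq, h⟩ := hS t ht
  refine ⟨φ p, mem_image_of_mem _ hp, φ q, mem_image_of_mem _ hq, ?_⟩
  rw [eval_map_apply, ← h, map_add, map_mul]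

/-- `f` is potentially monic and integral at the finite place `v`: `δ` is `v`-integral and, for an
absolute value `w` on the algebraic closure extending `v` and an affine coordinate `x = l x' + b`
over the algebraic closure, the map becomes `(x', y') ↦ (y', g(y') - δ x')` with a polynomial `g`
with `w`-integral coefficients whose leading coefficient is a `w`-adic unit. This holds if `f` has
potentially good reduction at `v` (where moreover `δ` is a unit at `v`). -/
def PotInt {K : Type u} [Field K] [NumberField K] (v : FinitePlace K) (F : K[X]) (δ : K) : Prop :=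
  v δ ≤ 1 ∧ ∃ w : AbsoluteValue (AlgebraicClosure K) ℝ,
    (∀ x : K, w (algebraMap K (AlgebraicClosure K) x) = v x) ∧
    ∃ (g : (AlgebraicClosure K)[X]) (l b : AlgebraicClosure K), l ≠ 0 ∧
      (∀ j, w (g.coeff j) ≤ 1) ∧ w g.leadingCoeff = 1 ∧
      C l * g = (F.map (algebraMap K (AlgebraicClosure K))).comp (C l * X + C b) -
        C ((1 + algebraMap K (AlgebraicClosure K) δ) * b)

lemma finitePlace_natCast_le {K : Type u} [Field K] [NumberField K] (v : FinitePlace K) (n : ℕ) :
    v (n : K) ≤ 1 := by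
  have h := FinitePlace.norm_embedding_eq v (n : K)
  rw [FinitePlace.norm_embedding] at h
  rw [← h]
  exact_mod_cast NumberField.HeightOneSpectrum.adicAbv_natCast_le_one K v.maximalIdeal n

lemma ext_nonarch {K : Type u} [Field K] [NumberField K] (v : FinitePlace K)
    (w : AbsoluteValue (AlgebraicClosure K) ℝ)
    (h : ∀ x : K, w (algebraMap K (AlgebraicClosure K) x) = v x) : IsNonarchimedean w := by
  have hn : ∀ n : ℕ, w n ≤ 1 := by
    intro n
    have := h (n : K)
    rw [map_natCast] at this
    rw [this]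
    exact finitePlace_natCast_le v n
  let _ : NormedField (AlgebraicClosure K) := w.toNormedField
  have : IsUltrametricDist (AlgebraicClosure K) :=
    IsUltrametricDist.isUltrametricDist_of_forall_norm_natCast_le_one hn
  intro x y
  exact IsUltrametricDist.norm_add_le_max x y

lemma sum_le_of_nonarch {L ι : Type*} [Field L] (w : AbsoluteValue L ℝ) (hw : IsNonarchimedean w)
    (s : Finset ι) (f : ι → L) (B : ℝ) (hB : 0 ≤ B) (h : ∀ i ∈ s, w (f i) ≤ B) :
    w (∑ i ∈ s, f i) ≤ B := by
  classical
  induction s using Finset.induction with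
  | empty => simpa using hB
  | insert a s ha ih =>
    rw [sum_insert ha]
    exact (hw _ _).trans (max_le (h a (mem_insert_self _ _))
      (ih fun i hi => h i (mem_insert_of_mem hi)))

/-- Closed sets are integral at a place where the map is monic and integral. -/
lemma closed_integral {L : Type*} [Field L] (w : AbsoluteValue L ℝ) (hw : IsNonarchimedean w)
    (g : L[X]) (δ : L) (hd : 2 ≤ g.natDegree) (hg : ∀ j, w (g.coeff j) ≤ 1)
    (hl : w g.leadingCoeff = 1) (hδ : w δ ≤ 1) (S : Finset L) (hS : Closed g δ S) :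
    ∀ s ∈ S, w s ≤ 1 := by
  intro s₀ hs₀
  obtain ⟨s, hs, hmax⟩ := exists_max_image S w ⟨s₀, hs₀⟩
  refine (hmax s₀ hs₀).trans ?_
  by_contra hM
  push Not at hM
  set M := w s with hMdef
  set d := g.natDegree with hddef
  obtain ⟨p, hp, q, hq, h⟩ := hS s hs
  have h1 : w (g.eval s) ≤ M := by
    rw [← h]
    refine (hw _ _).trans (max_le (hmax p hp) ?_)
    rw [map_mul]
    calc w δ * w q ≤ 1 * M := mul_le_mul hδ (hmax q hq) (w.nonneg _) (by norm_num)
      _ = M := one_mul _
  have h2 : g.leadingCoeff * s ^ d = g.eval s - ∑ i ∈ range d, g.coeff i * s ^ i := by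
    rw [eval_eq_sum_range, sum_range_succ, ← hddef]
    rw [leadingCoeff, ← hddef]
    ring
  have hpow1 : M ≤ M ^ (d - 1) := by
    calc M = M ^ 1 := (pow_one _).symm
      _ ≤ M ^ (d - 1) := pow_le_pow_right₀ hM.le (by omega)
  have h3 : w (∑ i ∈ range d, g.coeff i * s ^ i) ≤ M ^ (d - 1) := by
    refine sum_le_of_nonarch w hw _ _ _ (by positivity) fun i hi => ?_
    rw [map_mul, map_pow]
    have hi' := mem_range.1 hi
    calc w (g.coeff i) * M ^ i ≤ 1 * M ^ (d - 1) :=
          mul_le_mul (hg i) (pow_le_pow_right₀ hM.le (by omega)) (by positivity) (by norm_num)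
      _ = _ := one_mul _
  have h4 : w (g.leadingCoeff * s ^ d) ≤ M ^ (d - 1) := by
    rw [h2, sub_eq_add_neg]
    refine (hw _ _).trans (max_le (h1.trans hpow1) ?_)
    rw [w.map_neg]
    exact h3
  rw [map_mul, map_pow, hl, one_mul] at h4
  have h5 : M ^ (d - 1) < M ^ d := pow_lt_pow_right₀ hM (by omega)
  linarith

/-- The bound at a finite place. -/
lemma potInt_bound {K : Type u} [Field K] [NumberField K] (v : FinitePlace K) (F : K[X]) (δ : K)
    (hd : 2 ≤ F.natDegree) (h : PotInt v F δ) (S : Finset K) (hS : Closed F δ S) {s t : K}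
    (hs : s ∈ S) (ht : t ∈ S) : v ((s - t) ^ (F.natDegree - 1) * F.leadingCoeff) ≤ 1 := by
  classical
  obtain ⟨hδ, w, hw, g, l, b, hl, hg, hlead, hconj⟩ := h
  have hna := ext_nonarch v w hw
  set φ := algebraMap K (AlgebraicClosure K) with hφ
  set d := F.natDegree with hddef
  have hmapdeg : (F.map φ).natDegree = d := natDegree_map_eq_of_injective φ.injective F
  have hlindeg : (C l * X + C b : (AlgebraicClosure K)[X]).natDegree = 1 :=
    natDegree_linear hl
  have hcompdeg : ((F.map φ).comp (C l * X + C b)).natDegree = d := by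
    rw [natDegree_comp, hmapdeg, hlindeg, mul_one]
  have hgdeg : g.natDegree = d := by
    have := congrArg natDegree hconj
    rw [natDegree_C_mul hl, natDegree_sub_C, hcompdeg] at this
    exact this
  have hglead : l * g.leadingCoeff = φ F.leadingCoeff * l ^ d := by
    have h1 := congrArg (fun P => coeff P d) hconj
    rw [coeff_C_mul, coeff_sub] at h1
    have h2 : (C ((1 + φ δ) * b) : (AlgebraicClosure K)[X]).coeff d = 0 := by
      rw [coeff_C, if_neg (by omega)]
    rw [h2, sub_zero] at h1
    have h3 : ((F.map φ).comp (C l * X + C b)).coeff d = φ F.leadingCoeff * l ^ d := by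
      have h4 := leadingCoeff_comp (p := F.map φ) (q := C l * X + C b) (by rw [hlindeg]; norm_num)
      rw [leadingCoeff, hcompdeg, hmapdeg, leadingCoeff_linear hl, leadingCoeff_map] at h4
      exact h4
    rw [h3] at h1
    rw [leadingCoeff, hgdeg]
    exact h1
  -- the transformed closed set
  set S' : Finset (AlgebraicClosure K) := S.image (fun x => (φ x - b) / l) with hS'
  have hclosed : Closed g (φ δ) S' := by
    intro x hx
    obtain ⟨y, hy, rfl⟩ := mem_image.1 hx
    obtain ⟨p, hp, q, hq, hpq⟩ := hS y hy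
    refine ⟨_, mem_image_of_mem _ hp, _, mem_image_of_mem _ hq, ?_⟩
    have h1 := congrArg (fun P => eval ((φ y - b) / l) P) hconj
    simp only [eval_mul, eval_C, eval_sub, eval_comp, eval_add, eval_X] at h1
    have h2 : l * ((φ y - b) / l) + b = φ y := by
      field_simp
      ring
    rw [h2, eval_map_apply, ← hpq, map_add, map_mul] at h1
    have h3 : eval ((φ y - b) / l) g = (φ p + φ δ * φ q - (1 + φ δ) * b) / l := by
      rw [eq_div_iff hl, mul_comm]
      exact h1
    rw [h3]
    field_simp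
    ring
  have hint := closed_integral w hna g (φ δ) (by rw [hgdeg]; exact hd) hg hlead
    (by rw [hw]; exact hδ) S' hclosed
  have h1 : w ((φ s - b) / l - (φ t - b) / l) ≤ 1 := by
    rw [sub_eq_add_neg]
    refine (hna _ _).trans (max_le (hint _ (mem_image_of_mem _ hs)) ?_)
    rw [w.map_neg]
    exact hint _ (mem_image_of_mem _ ht)
  have h2 : (φ s - b) / l - (φ t - b) / l = φ (s - t) / l := by
    rw [map_sub]; ring
  rw [h2, map_div₀] at h1
  have hl0 : 0 < w l := w.pos hl
  rw [div_le_one hl0] at h1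
  have h3 : w l = w (φ F.leadingCoeff) * w l ^ d := by
    have := congrArg w hglead
    rw [map_mul, map_mul, map_pow, hlead, mul_one] at this
    exact this
  have h4 : w (φ F.leadingCoeff) * w l ^ (d - 1) = 1 := by
    have e : w l ^ d = w l * w l ^ (d - 1) := by
      rw [← pow_succ']; congr 1; omega
    rw [e] at h3
    have : w l * (w (φ F.leadingCoeff) * w l ^ (d - 1)) = w l * 1 := by linarith
    exact mul_left_cancel₀ hl0.ne' this
  rw [← hw, map_mul, map_pow, map_mul, map_pow]
  calc w (φ (s - t)) ^ (d - 1) * w (φ F.leadingCoeff)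
      ≤ w l ^ (d - 1) * w (φ F.leadingCoeff) := by
        gcongr
    _ = 1 := by rw [mul_comm]; exact h4

lemma one_le_prod_infinite {K : Type u} [Field K] [NumberField K] (x : K) (hx : x ≠ 0)
    (h : ∀ v : FinitePlace K, v x ≤ 1) : 1 ≤ ∏ w : InfinitePlace K, w x ^ w.mult := by
  have h1 := prod_abs_eq_one hx
  have h2 : (0 : ℝ) ≤ ∏ᶠ v : FinitePlace K, v x ∧ ∏ᶠ v : FinitePlace K, v x ≤ 1 := by
    refine finprod_induction (fun y : ℝ => 0 ≤ y ∧ y ≤ 1) ⟨zero_le_one, le_rfl⟩ ?_ ?_
    · rintro a b ⟨ha, ha'⟩ ⟨hb, hb'⟩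
      exact ⟨mul_nonneg ha hb, mul_le_one₀ ha' hb hb'⟩
    · intro v
      exact ⟨apply_nonneg v x, h v⟩
  have h3 : 0 ≤ ∏ w : InfinitePlace K, w x ^ w.mult :=
    prod_nonneg fun w _ => pow_nonneg (apply_nonneg w x) _
  nlinarith [h2.1, h2.2]

end Pool.Agent.TH737.HEN
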