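import Pool.Agent.TH737.HEN.Real

/-!
# Interpolation at nodes with prescribed positions
-/

set_option autoImplicit false

namespace Pool.Agent.TH737.HEN

open Finset Polynomial

lemma exists_nodes_pos (U : Finset ℝ) (m : ℝ) (hm : 0 < m)
    (hsep : ∀ u ∈ U, ∀ u' ∈ U, u ≠ u' → m ≤ |u - u'|) (d : ℕ) (hd : 1 ≤ d)
    (p : ℕ → ℕ) (hp : ∀ i j, i < j → j ≤ d → p i < p j) (hp0 : p 0 = 0)
    (hU : p d + 1 ≤ U.card) :
    ∃ t : ℕ → ℝ, (∀ i ≤ d, t i ∈ U) ∧
      (∀ i j, i ≤ j → j ≤ d → ((p j : ℝ) - p i) * m ≤ t j - t i) ∧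
      (∀ u ∈ U, t 0 ≤ u ∧ u ≤ t d) := by
  classical
  obtain ⟨k, hk⟩ : ∃ k, U.card = k := ⟨_, rfl⟩
  have hk1 : p d + 1 ≤ k := hk ▸ hU
  set e := U.orderEmbOfFin hk with he
  have hmem : ∀ i, e i ∈ U := fun i => Finset.orderEmbOfFin_mem U hk i
  have hstep : ∀ n : ℕ, ∀ i j : Fin k, (j : ℕ) = i + n → (n : ℝ) * m ≤ e j - e i := by
    intro n
    induction n with
    | zero =>
      intro i j hij
      have : j = i := Fin.ext (by simpa using hij)
      subst this
      simp
    | succ n ih =>
      intro i j hij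
      have hlt : (i : ℕ) + n < k := by have := j.2; omega
      have h1 := ih i ⟨(i : ℕ) + n, hlt⟩ rfl
      have hne : (⟨(i : ℕ) + n, hlt⟩ : Fin k) < j := by
        rw [Fin.lt_def]; simp; omega
      have h2 : e ⟨(i : ℕ) + n, hlt⟩ < e j := e.strictMono hne
      have h3 := hsep _ (hmem j) _ (hmem ⟨(i : ℕ) + n, hlt⟩) h2.ne'
      rw [abs_of_pos (sub_pos.2 h2)] at h3
      push_cast
      linarith
  have hk0 : k - 1 < k := by omega
  have hlt : ∀ i, i < d → p i < k := by
    intro i hi
    have := hp i d hi le_rfl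
    omega
  have hle : ∀ i j, i ≤ j → j ≤ d → p i ≤ p j := by
    intro i j hij hj
    rcases hij.eq_or_lt with rfl | h
    · exact le_rfl
    · exact (hp i j h hj).le
  refine ⟨fun i => if h : i < d then e ⟨p i, hlt i h⟩ else e ⟨k - 1, hk0⟩, ?_, ?_, ?_⟩
  · intro i hi
    dsimp only
    split_ifs
    · exact hmem _
    · exact hmem _
  · intro i j hij hj
    dsimp only
    have hijk : p i ≤ p j := hle i j hij hj
    have hcast : ((p j - p i : ℕ) : ℝ) * m = ((p j : ℝ) - p i) * m := by
      rw [Nat.cast_sub hijk]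
    by_cases hjd : j < d
    · have hid : i < d := by omega
      rw [dif_pos hjd, dif_pos hid]
      have := hstep (p j - p i) ⟨p i, hlt i hid⟩ ⟨p j, hlt j hjd⟩ (by simp; omega)
      rwa [hcast] at this
    · have hjd' : j = d := by omega
      rw [dif_neg hjd]
      by_cases hid : i < d
      · rw [dif_pos hid]
        have h := hstep (k - 1 - p i) ⟨p i, hlt i hid⟩ ⟨k - 1, hk0⟩
          (by have := hlt i hid; simp; omega)
        refine le_trans ?_ h
        rw [← hcast]
        refine mul_le_mul_of_nonneg_right ?_ hm.le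
        subst hjd'
        have h1 : p j - p i ≤ k - 1 - p i := by omega
        exact_mod_cast h1
      · have : i = j := by omega
        subst this
        rw [dif_neg hid]
        simp
  · intro u hu
    have hu' : u ∈ Set.range e := by
      rw [he, Finset.range_orderEmbOfFin]
      exact hu
    obtain ⟨i, rfl⟩ := hu'
    dsimp only
    have h0 : (0 : ℕ) < d := by omega
    rw [dif_pos h0, dif_neg (lt_irrefl d)]
    constructor
    · exact e.monotone (by rw [Fin.le_def]; simp [hp0])
    · exact e.monotone (by rw [Fin.le_def]; have := i.2; simp; omega)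

lemma prod_lower_pos (d : ℕ) (hd : 2 ≤ d) (m : ℝ) (hm : 0 < m) (p : ℕ → ℕ)
    (hp : ∀ i j, i < j → j ≤ d → p i < p j) (t : ℕ → ℝ)
    (ht : ∀ i j, i ≤ j → j ≤ d → ((p j : ℝ) - p i) * m ≤ t j - t i) (i : ℕ) (hi : i ≤ d) :
    (t d - t 0) * ∏ j ∈ (range (d + 1)).erase i, |(p i : ℝ) - p j| * m ≤
      ((p d : ℝ) - p 0) * m * ∏ j ∈ (range (d + 1)).erase i, |t i - t j| := by
  classical
  have hpl : ∀ i j, i < j → j ≤ d → (p i : ℝ) < p j := fun i j h h' => by
    exact_mod_cast hp i j h h'
  have hab : ∀ j ≤ d, |(p i : ℝ) - p j| * m ≤ |t i - t j| := by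
    intro j hj
    rcases le_total i j with h | h
    · have h1 := ht i j h hj
      have h2 : (p i : ℝ) ≤ p j := by
        rcases h.eq_or_lt with rfl | h
        · exact le_rfl
        · exact (hpl i j h hj).le
      rw [abs_of_nonpos (by linarith)]
      rw [abs_sub_comm]
      refine le_trans (le_of_eq (by ring)) (h1.trans (le_abs_self _))
    · have h1 := ht j i h hi
      have h2 : (p j : ℝ) ≤ p i := by
        rcases h.eq_or_lt with rfl | h
        · exact le_rfl
        · exact (hpl j i h hi).le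
      rw [abs_of_nonneg (by linarith)]
      exact h1.trans (le_abs_self _)
  have hP0 : 0 < ((p d : ℝ) - p 0) * m := mul_pos (sub_pos.2 (hpl 0 d (by omega) le_rfl)) hm
  have hD : 0 < t d - t 0 := lt_of_lt_of_le hP0 (ht 0 d (by omega) le_rfl)
  rcases Nat.eq_zero_or_pos i with h0 | h0
  · subst h0
    have hmem : d ∈ (range (d + 1)).erase 0 := by simp; omega
    rw [← mul_prod_erase _ _ hmem, ← mul_prod_erase _ (fun j => |t 0 - t j|) hmem]
    have h1 : ∏ j ∈ ((range (d + 1)).erase 0).erase d, |(p 0 : ℝ) - p j| * m ≤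
        ∏ j ∈ ((range (d + 1)).erase 0).erase d, |t 0 - t j| := by
      refine prod_le_prod (fun j _ => by positivity) fun j hj => hab j ?_
      simp at hj; omega
    have h2 : |(p 0 : ℝ) - p d| * m = ((p d : ℝ) - p 0) * m := by
      rw [abs_sub_comm, abs_of_pos (sub_pos.2 (hpl 0 d (by omega) le_rfl))]
    have h3 : |t 0 - t d| = t d - t 0 := by rw [abs_sub_comm, abs_of_pos hD]
    rw [h2, h3]
    calc (t d - t 0) * (((p d : ℝ) - p 0) * m *
          ∏ j ∈ ((range (d + 1)).erase 0).erase d, |(p 0 : ℝ) - p j| * m)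
        ≤ (t d - t 0) * (((p d : ℝ) - p 0) * m *
          ∏ j ∈ ((range (d + 1)).erase 0).erase d, |t 0 - t j|) := by
          gcongr
      _ = _ := by ring
  · rcases hi.eq_or_lt with h1 | h1
    · subst h1
      have hmem : 0 ∈ (range (i + 1)).erase i := by simp; omega
      rw [← mul_prod_erase _ _ hmem, ← mul_prod_erase _ (fun j => |t i - t j|) hmem]
      have h1 : ∏ j ∈ ((range (i + 1)).erase i).erase 0, |(p i : ℝ) - p j| * m ≤
          ∏ j ∈ ((range (i + 1)).erase i).erase 0, |t i - t j| := by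
        refine prod_le_prod (fun j _ => by positivity) fun j hj => hab j ?_
        simp at hj; omega
      have h2 : |(p i : ℝ) - p 0| * m = ((p i : ℝ) - p 0) * m := by
        rw [abs_of_pos (sub_pos.2 (hpl 0 i (by omega) le_rfl))]
      have h3 : |t i - t 0| = t i - t 0 := abs_of_pos hD
      rw [h2, h3]
      calc (t i - t 0) * (((p i : ℝ) - p 0) * m *
            ∏ j ∈ ((range (i + 1)).erase i).erase 0, |(p i : ℝ) - p j| * m)
          ≤ (t i - t 0) * (((p i : ℝ) - p 0) * m *
            ∏ j ∈ ((range (i + 1)).erase i).erase 0, |t i - t j|) := by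
            gcongr
        _ = _ := by ring
    · have hmem : 0 ∈ (range (d + 1)).erase i := by simp; omega
      have hmem2 : d ∈ ((range (d + 1)).erase i).erase 0 := by simp; omega
      rw [← mul_prod_erase _ _ hmem, ← mul_prod_erase _ (fun j => |t i - t j|) hmem,
        ← mul_prod_erase _ _ hmem2, ← mul_prod_erase _ (fun j => |t i - t j|) hmem2]
      have h4 : ∏ j ∈ (((range (d + 1)).erase i).erase 0).erase d, |(p i : ℝ) - p j| * m ≤
          ∏ j ∈ (((range (d + 1)).erase i).erase 0).erase d, |t i - t j| := by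
        refine prod_le_prod (fun j _ => by positivity) fun j hj => hab j ?_
        simp at hj; omega
      have hP : 0 ≤ ∏ j ∈ (((range (d + 1)).erase i).erase 0).erase d, |(p i : ℝ) - p j| * m :=
        prod_nonneg fun j _ => by positivity
      have hx : 0 < ((p i : ℝ) - p 0) * m := mul_pos (sub_pos.2 (hpl 0 i h0 hi)) hm
      have hy : 0 < ((p d : ℝ) - p i) * m := mul_pos (sub_pos.2 (hpl i d h1 le_rfl)) hm
      have h5 : ((p i : ℝ) - p 0) * m ≤ t i - t 0 := ht 0 i (by omega) hi
      have h6 : ((p d : ℝ) - p i) * m ≤ t d - t i := ht i d hi le_rfl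
      have ha0 : |t i - t 0| = t i - t 0 := abs_of_pos (lt_of_lt_of_le hx h5)
      have had : |t i - t d| = t d - t i := by
        rw [abs_sub_comm]
        exact abs_of_pos (lt_of_lt_of_le hy h6)
      have hb0 : |(p i : ℝ) - p 0| * m = ((p i : ℝ) - p 0) * m := by
        rw [abs_of_pos (sub_pos.2 (hpl 0 i h0 hi))]
      have hbd : |(p i : ℝ) - p d| * m = ((p d : ℝ) - p i) * m := by
        rw [abs_sub_comm, abs_of_pos (sub_pos.2 (hpl i d h1 le_rfl))]
      rw [ha0, had, hb0, hbd]
      set P := ∏ j ∈ (((range (d + 1)).erase i).erase 0).erase d, |(p i : ℝ) - p j| * m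
      set Q := ∏ j ∈ (((range (d + 1)).erase i).erase 0).erase d, |t i - t j|
      set a := t i - t 0 with ha
      set b := t d - t i with hb
      have hsum : t d - t 0 = a + b := by rw [ha, hb]; ring
      rw [hsum]
      have e1 : ((p d : ℝ) - p 0) * m = ((p i : ℝ) - p 0) * m + ((p d : ℝ) - p i) * m := by ring
      rw [e1]
      generalize ((p i : ℝ) - p 0) * m = x at *
      generalize ((p d : ℝ) - p i) * m = y at *
      have ha' : 0 < a := lt_of_lt_of_le hx h5
      have hb' : 0 < b := lt_of_lt_of_le hy h6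
      have h7 : (a + b) * (x * y) ≤ (x + y) * (a * b) := by
        nlinarith [mul_le_mul_of_nonneg_right h5 (mul_pos hy hb').le,
          mul_le_mul_of_nonneg_right h6 (mul_pos hx ha').le]
      calc (a + b) * (x * (y * P))
          = ((a + b) * (x * y)) * P := by ring
        _ ≤ ((x + y) * (a * b)) * P := by gcongr
        _ ≤ ((x + y) * (a * b)) * Q := by gcongr
        _ = _ := by ring

/-- The sum of the reciprocals of the products of the distances. -/
noncomputable def W (d : ℕ) (p : ℕ → ℕ) : ℝ :=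
  ∑ i ∈ range (d + 1), 1 / ∏ j ∈ (range (d + 1)).erase i, |(p i : ℝ) - p j|

/-- The interpolation bound for the leading coefficient. -/
theorem interp_bound (d : ℕ) (hd : 2 ≤ d) (U : Finset ℝ) (F : ℝ[X]) (δ : ℝ)
    (hF : F.natDegree = d) (hc : Closed F δ U) (m : ℝ) (hm : 0 < m) (p : ℕ → ℕ)
    (hp : ∀ i j, i < j → j ≤ d → p i < p j) (hp0 : p 0 = 0) (t : ℕ → ℝ)
    (htU : ∀ i ≤ d, t i ∈ U)
    (ht : ∀ i j, i ≤ j → j ≤ d → ((p j : ℝ) - p i) * m ≤ t j - t i)
    (hext : ∀ u ∈ U, t 0 ≤ u ∧ u ≤ t d) :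
    |F.coeff d| * m ^ (d - 1) ≤ (1 + |δ|) / 2 * p d * W d p := by
  classical
  have hdist := prod_lower_pos d hd m hm p hp t ht
  have hpd : (0 : ℝ) < p d := by
    have := hp 0 d (by omega) le_rfl
    exact_mod_cast (by omega : 0 < p d)
  set D := t d - t 0 with hDdef
  have hD : 0 < D := by
    have := ht 0 d (by omega) le_rfl
    refine lt_of_lt_of_le ?_ this
    rw [hp0]
    push_cast
    rw [sub_zero]
    exact mul_pos hpd hm
  set c := (1 + δ) * ((t 0 + t d) / 2) with hcdef
  have hval : ∀ u ∈ U, |F.eval u - c| ≤ (1 + |δ|) * (D / 2) := by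
    intro u hu
    obtain ⟨p, hp, q, hq, hpq⟩ := hc u hu
    have h1 : |p - (t 0 + t d) / 2| ≤ D / 2 := by
      obtain ⟨h2, h3⟩ := hext p hp
      rw [abs_le]; constructor <;> (rw [hDdef]; linarith)
    have h1' : |q - (t 0 + t d) / 2| ≤ D / 2 := by
      obtain ⟨h2, h3⟩ := hext q hq
      rw [abs_le]; constructor <;> (rw [hDdef]; linarith)
    rw [← hpq, hcdef]
    have : p + δ * q - (1 + δ) * ((t 0 + t d) / 2) =
        (p - (t 0 + t d) / 2) + δ * (q - (t 0 + t d) / 2) := by ring
    rw [this]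
    calc _ ≤ |p - (t 0 + t d) / 2| + |δ * (q - (t 0 + t d) / 2)| := abs_add_le _ _
      _ ≤ D / 2 + |δ| * (D / 2) := by
          rw [abs_mul]
          gcongr
      _ = _ := by ring
  have hinj : Set.InjOn t (range (d + 1) : Finset ℕ) := by
    intro i hi j hj hij
    simp only [coe_range, Set.mem_Iio] at hi hj
    by_contra hne
    rcases lt_or_gt_of_ne hne with h | h
    · have h1 := ht i j h.le (by omega)
      have h2 : (0 : ℝ) < (p j : ℝ) - p i := by
        have : (p i : ℝ) < p j := by exact_mod_cast hp i j h (by omega)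
        linarith
      have := mul_pos h2 hm
      linarith
    · have h1 := ht j i h.le (by omega)
      have h2 : (0 : ℝ) < (p i : ℝ) - p j := by
        have : (p j : ℝ) < p i := by exact_mod_cast hp j i h (by omega)
        linarith
      have := mul_pos h2 hm
      linarith
  set P := F - C c with hP
  have hPc : P.coeff d = F.coeff d := by
    rw [hP, coeff_sub, coeff_C, if_neg (by omega), sub_zero]
  have hPdeg : P.degree < ((range (d + 1)).card : WithBot ℕ) := by
    rw [card_range]
    refine lt_of_le_of_lt (degree_sub_le _ _) ?_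
    refine max_lt ?_ ?_
    · refine lt_of_le_of_lt degree_le_natDegree ?_
      rw [hF]
      exact_mod_cast Nat.lt_succ_self d
    · refine lt_of_le_of_lt degree_C_le ?_
      exact_mod_cast Nat.succ_pos d
  have hL := Lagrange.coeff_eq_sum hinj hPdeg
  rw [card_range, Nat.add_sub_cancel, hPc] at hL
  have hbpos : ∀ i, i ≤ d → 0 < ∏ j ∈ (range (d + 1)).erase i, |(p i : ℝ) - p j| := by
    intro i hi
    refine prod_pos fun j hj => abs_pos.2 (sub_ne_zero.2 ?_)
    have hj1 := ne_of_mem_erase hj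
    have hj2 := mem_range.1 (mem_of_mem_erase hj)
    intro h
    have h' : p i = p j := by exact_mod_cast h
    rcases lt_or_gt_of_ne hj1 with h1 | h1
    · have := hp j i h1 hi
      omega
    · have := hp i j h1 (by omega)
      omega
  have hbound : |F.coeff d| ≤ ∑ i ∈ range (d + 1),
      ((1 + |δ|) / 2 * p d / m ^ (d - 1)) * (1 / ∏ j ∈ (range (d + 1)).erase i,
        |(p i : ℝ) - p j|) := by
    rw [hL]
    refine (abs_sum_le_sum_abs _ _).trans (sum_le_sum fun i hi => ?_)
    have hi' : i ≤ d := by have := mem_range.1 hi; omega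
    rw [abs_div, abs_prod]
    have h1 := hdist i hi'
    have h2 : |eval (t i) P| ≤ (1 + |δ|) * (D / 2) := by
      rw [hP, eval_sub, eval_C]
      exact hval _ (htU i hi')
    set b := ∏ j ∈ (range (d + 1)).erase i, |(p i : ℝ) - p j| with hb
    have hb0 : 0 < b := hbpos i hi'
    have hprod : ∏ j ∈ (range (d + 1)).erase i, |(p i : ℝ) - p j| * m = b * m ^ d := by
      rw [prod_mul_distrib, prod_const, card_erase_of_mem hi, card_range, Nat.add_sub_cancel]
    rw [hprod, hp0] at h1
    have hpow : m ^ d = m * m ^ (d - 1) := by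
      rw [← pow_succ']; congr 1; omega
    push_cast at h1
    rw [sub_zero] at h1
    have hmm : 0 < m ^ (d - 1) := by positivity
    set a := ∏ j ∈ (range (d + 1)).erase i, |t i - t j| with ha
    have h3 : D * (b * m ^ (d - 1)) ≤ p d * a := by
      rw [hpow] at h1
      have h4 : m * (D * (b * m ^ (d - 1))) ≤ m * (p d * a) := by
        calc m * (D * (b * m ^ (d - 1))) = D * (b * (m * m ^ (d - 1))) := by ring
          _ ≤ p d * m * a := h1
          _ = _ := by ring
      exact le_of_mul_le_mul_left h4 hm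
    have ha0 : 0 < a := by
      have h4 : 0 < D * (b * m ^ (d - 1)) := by positivity
      have h5 : 0 < p d * a := lt_of_lt_of_le h4 h3
      exact (mul_pos_iff_of_pos_left hpd).1 h5
    have hA : 0 ≤ 1 + |δ| := by positivity
    rw [div_le_iff₀ ha0]
    calc |eval (t i) P| ≤ (1 + |δ|) * (D / 2) := h2
      _ = (1 + |δ|) / 2 * (D * (b * m ^ (d - 1))) / (b * m ^ (d - 1)) := by
          field_simp
      _ ≤ (1 + |δ|) / 2 * (p d * a) / (b * m ^ (d - 1)) := by gcongr
      _ = _ := by field_simp
  rw [← mul_sum] at hbound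
  have hmm : 0 < m ^ (d - 1) := by positivity
  calc |F.coeff d| * m ^ (d - 1) ≤ ((1 + |δ|) / 2 * p d / m ^ (d - 1)) * W d p * m ^ (d - 1) := by
        gcongr
        exact hbound
    _ = _ := by field_simp

/-- The real case, with prescribed positions. -/
theorem real_card_le_pos (d : ℕ) (hd : 2 ≤ d) (U : Finset ℝ) (F : ℝ[X]) (δ : ℝ)
    (hF : F.natDegree = d) (hc : Closed F δ U) (m : ℝ) (hm : 0 < m)
    (hsep : ∀ u ∈ U, ∀ u' ∈ U, u ≠ u' → m ≤ |u - u'|)
    (hlead : 1 ≤ |F.coeff d| * m ^ (d - 1)) (p : ℕ → ℕ)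
    (hp : ∀ i j, i < j → j ≤ d → p i < p j) (hp0 : p 0 = 0)
    (hsmall : (1 + |δ|) / 2 * p d * W d p < 1) : U.card ≤ p d := by
  by_contra hcard
  obtain ⟨t, htU, ht, hext⟩ := exists_nodes_pos U m hm hsep d (by omega) p hp hp0 (by omega)
  have := interp_bound d hd U F δ hF hc m hm p hp hp0 t htU ht hext
  linarith

lemma W_id (d : ℕ) : W d id = 2 ^ d / d.factorial := by
  unfold W
  rw [← sum_inv_factorial]
  refine sum_congr rfl fun i hi => ?_
  have hi' : i ≤ d := by have := mem_range.1 hi; omega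
  have h := prod_erase_dist d i hi' 1
  simp only [mul_one, one_pow, one_mul] at h
  simp only [id]
  rw [h]

end Pool.Agent.TH737.HEN
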