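import Mathlib

/-!
# Separated sets of real numbers on which a polynomial of degree `d` is small
-/

set_option autoImplicit false

namespace Pool.Agent.TH737.HEN

open Finset Polynomial

/-- `S` is closed for the recursion `x_{n+1} + δ x_{n-1} = F(x_n)`. -/
def Closed {K : Type*} [CommRing K] (F : K[X]) (δ : K) (S : Finset K) : Prop :=
  ∀ s ∈ S, ∃ p ∈ S, ∃ q ∈ S, p + δ * q = F.eval s

lemma exists_nodes (U : Finset ℝ) (m : ℝ) (hm : 0 < m)
    (hsep : ∀ u ∈ U, ∀ u' ∈ U, u ≠ u' → m ≤ |u - u'|) (d : ℕ) (hd : 1 ≤ d)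
    (k₀ : ℕ) (hk₀ : 1 ≤ k₀) (hU : k₀ * d + 1 ≤ U.card) :
    ∃ t : ℕ → ℝ, (∀ i ≤ d, t i ∈ U) ∧
      (∀ i j, i ≤ j → j ≤ d → ((j : ℝ) - i) * (k₀ * m) ≤ t j - t i) ∧
      (∀ u ∈ U, t 0 ≤ u ∧ u ≤ t d) := by
  classical
  obtain ⟨k, hk⟩ : ∃ k, U.card = k := ⟨_, rfl⟩
  have hk1 : k₀ * d + 1 ≤ k := hk ▸ hU
  set e := U.orderEmbOfFin hk with he
  have hmem : ∀ i, e i ∈ U := fun i => Finset.orderEmbOfFin_mem U hk i
  have hstep : ∀ n : ℕ, ∀ i j : Fin k, (j : ℕ) = i + n → (n : ℝ) * m ≤ e j - e i := by
    intro n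
    induction n with
    | zero =>
      intro i j hij
      have : j = i := Fin.ext (by simpa using hij)
      subst this
      simp
    | succ n ih =>
      intro i j hij
      have hlt : (i : ℕ) + n < k := by have := j.2; omega
      have h1 := ih i ⟨(i : ℕ) + n, hlt⟩ rfl
      have hne : (⟨(i : ℕ) + n, hlt⟩ : Fin k) < j := by
        rw [Fin.lt_def]; simp; omega
      have h2 : e ⟨(i : ℕ) + n, hlt⟩ < e j := e.strictMono hne
      have h3 := hsep _ (hmem j) _ (hmem ⟨(i : ℕ) + n, hlt⟩) h2.ne'
      rw [abs_of_pos (sub_pos.2 h2)] at h3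
      push_cast
      linarith
  have hk0 : k - 1 < k := by omega
  have hlt : ∀ i, i < d → k₀ * i < k := by
    intro i hi
    have := Nat.mul_le_mul_left k₀ hi.le
    omega
  refine ⟨fun i => if h : i < d then e ⟨k₀ * i, hlt i h⟩ else e ⟨k - 1, hk0⟩, ?_, ?_, ?_⟩
  · intro i hi
    dsimp only
    split_ifs
    · exact hmem _
    · exact hmem _
  · intro i j hij hj
    dsimp only
    have hijk : k₀ * i ≤ k₀ * j := Nat.mul_le_mul_left k₀ hij
    have hcast : ((k₀ * j - k₀ * i : ℕ) : ℝ) * m = ((j : ℝ) - i) * (k₀ * m) := by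
      rw [Nat.cast_sub hijk]
      push_cast
      ring
    by_cases hjd : j < d
    · have hid : i < d := by omega
      rw [dif_pos hjd, dif_pos hid]
      have := hstep (k₀ * j - k₀ * i) ⟨k₀ * i, hlt i hid⟩ ⟨k₀ * j, hlt j hjd⟩ (by simp; omega)
      rwa [hcast] at this
    · have hjd' : j = d := by omega
      rw [dif_neg hjd]
      by_cases hid : i < d
      · rw [dif_pos hid]
        have h := hstep (k - 1 - k₀ * i) ⟨k₀ * i, hlt i hid⟩ ⟨k - 1, hk0⟩
          (by have := hlt i hid; simp; omega)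
        refine le_trans ?_ h
        rw [← hcast]
        refine mul_le_mul_of_nonneg_right ?_ hm.le
        subst hjd'
        have h1 : k₀ * j - k₀ * i ≤ k - 1 - k₀ * i := by omega
        exact_mod_cast h1
      · have : i = j := by omega
        subst this
        rw [dif_neg hid]
        simp
  · intro u hu
    have hu' : u ∈ Set.range e := by
      rw [he, Finset.range_orderEmbOfFin]
      exact hu
    obtain ⟨i, rfl⟩ := hu'
    dsimp only
    have h0 : (0 : ℕ) < d := by omega
    rw [dif_pos h0, dif_neg (lt_irrefl d)]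
    constructor
    · exact e.monotone (by rw [Fin.le_def]; simp)
    · exact e.monotone (by rw [Fin.le_def]; have := i.2; simp; omega)

/-- `∏_{j ≠ i, j ≤ d} |i - j| m = m^d i! (d - i)!`. -/
lemma prod_erase_dist (d i : ℕ) (hi : i ≤ d) (m : ℝ) :
    ∏ j ∈ (range (d + 1)).erase i, |(i : ℝ) - j| * m = m ^ d * (i.factorial * (d - i).factorial) := by
  have h1 : ∏ j ∈ (range (d + 1)).erase i, |(i : ℝ) - j| * m =
      m ^ d * ∏ j ∈ (range (d + 1)).erase i, |(i : ℝ) - j| := by
    rw [prod_mul_distrib, prod_const, card_erase_of_mem (by simp; omega), card_range, mul_comm]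
    simp
  rw [h1]
  congr 1
  have h2 : ∏ j ∈ (range (d + 1)).erase i, |(i : ℝ) - j| =
      ∏ j ∈ range (d + 1), (if j = i then 1 else |(i : ℝ) - j|) := by
    rw [← mul_prod_erase (range (d + 1)) _ (show i ∈ range (d + 1) by simp; omega)]
    rw [if_pos rfl, one_mul]
    refine prod_congr rfl fun j hj => ?_
    rw [if_neg (ne_of_mem_erase hj)]
  rw [h2]
  have h3 : d + 1 = (i + 1) + (d - i) := by omega
  rw [h3, prod_range_add, prod_range_succ, if_pos rfl, mul_one]
  congr 1
  · have : ∀ j ∈ range i, (if j = i then (1 : ℝ) else |(i : ℝ) - j|) = ((i - 1 - j : ℕ) : ℝ) + 1 := by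
      intro j hj
      have hj' := mem_range.1 hj
      rw [if_neg (by omega)]
      have : ((i - 1 - j : ℕ) : ℝ) = (i : ℝ) - 1 - j := by
        rw [Nat.cast_sub (by omega), Nat.cast_sub (by omega)]
        simp
      rw [this, abs_of_nonneg]
      · ring
      · have : (j : ℝ) ≤ i := by exact_mod_cast hj'.le
        linarith
    rw [prod_congr rfl this]
    rw [prod_range_reflect (fun j : ℕ => ((j : ℝ) + 1)) i]
    rw [← prod_range_add_one_eq_factorial]
    push_cast
    rfl
  · rw [← prod_range_add_one_eq_factorial]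
    push_cast
    refine prod_congr rfl fun j hj => ?_
    rw [if_neg (by omega)]
    rw [abs_of_nonpos (by linarith)]
    ring

lemma prod_lower (d : ℕ) (hd : 2 ≤ d) (m : ℝ) (hm : 0 < m) (t : ℕ → ℝ)
    (ht : ∀ i j, i ≤ j → j ≤ d → ((j : ℝ) - i) * m ≤ t j - t i) (i : ℕ) (hi : i ≤ d) :
    (t d - t 0) * (m ^ d * (i.factorial * (d - i).factorial)) ≤
      d * m * ∏ j ∈ (range (d + 1)).erase i, |t i - t j| := by
  classical
  rw [← prod_erase_dist d i hi m]
  have hab : ∀ j ≤ d, |(i : ℝ) - j| * m ≤ |t i - t j| := by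
    intro j hj
    rcases le_total i j with h | h
    · have h1 := ht i j h hj
      have h2 : (i : ℝ) ≤ j := by exact_mod_cast h
      rw [abs_of_nonpos (by linarith)]
      rw [abs_sub_comm]
      refine le_trans (le_of_eq (by ring)) (h1.trans (le_abs_self _))
    · have h1 := ht j i h hi
      have h2 : (j : ℝ) ≤ i := by exact_mod_cast h
      rw [abs_of_nonneg (by linarith)]
      exact h1.trans (le_abs_self _)
  have hbpos : ∀ j, j ≠ i → 0 < |(i : ℝ) - j| * m := by
    intro j hj
    refine mul_pos (abs_pos.2 (sub_ne_zero.2 ?_)) hm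
    exact_mod_cast hj.symm
  have hd0 : (0 : ℝ) < d := by positivity
  have hD : 0 < t d - t 0 := by
    have := ht 0 d (by omega) le_rfl
    refine lt_of_lt_of_le ?_ this
    simp
    positivity
  rcases Nat.eq_zero_or_pos i with h0 | h0
  · subst h0
    have hmem : d ∈ (range (d + 1)).erase 0 := by simp; omega
    rw [← mul_prod_erase _ _ hmem, ← mul_prod_erase _ (fun j => |t 0 - t j|) hmem]
    have h1 : ∏ j ∈ ((range (d + 1)).erase 0).erase d, |((0 : ℕ) : ℝ) - j| * m ≤
        ∏ j ∈ ((range (d + 1)).erase 0).erase d, |t 0 - t j| := by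
      refine prod_le_prod (fun j _ => by positivity) fun j hj => hab j ?_
      simp at hj; omega
    have h2 : |((0 : ℕ) : ℝ) - d| * m = d * m := by
      simp
    have h3 : |t 0 - t d| = t d - t 0 := by rw [abs_sub_comm, abs_of_pos hD]
    rw [h2, h3]
    calc (t d - t 0) * (d * m * ∏ j ∈ ((range (d + 1)).erase 0).erase d, |((0 : ℕ) : ℝ) - j| * m)
        ≤ (t d - t 0) * (d * m * ∏ j ∈ ((range (d + 1)).erase 0).erase d, |t 0 - t j|) := by
          gcongr
      _ = _ := by ring
  · rcases hi.eq_or_lt with h1 | h1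
    · subst h1
      have hmem : 0 ∈ (range (i + 1)).erase i := by simp; omega
      rw [← mul_prod_erase _ _ hmem, ← mul_prod_erase _ (fun j => |t i - t j|) hmem]
      have h1 : ∏ j ∈ ((range (i + 1)).erase i).erase 0, |((i : ℕ) : ℝ) - j| * m ≤
          ∏ j ∈ ((range (i + 1)).erase i).erase 0, |t i - t j| := by
        refine prod_le_prod (fun j _ => by positivity) fun j hj => hab j ?_
        simp at hj; omega
      have h2 : |((i : ℕ) : ℝ) - (0 : ℕ)| * m = i * m := by
        simp
      have h3 : |t i - t 0| = t i - t 0 := abs_of_pos hD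
      rw [h2, h3]
      calc (t i - t 0) * (i * m * ∏ j ∈ ((range (i + 1)).erase i).erase 0, |((i : ℕ) : ℝ) - j| * m)
          ≤ (t i - t 0) * (i * m * ∏ j ∈ ((range (i + 1)).erase i).erase 0, |t i - t j|) := by
            gcongr
        _ = _ := by ring
    · have hmem : 0 ∈ (range (d + 1)).erase i := by simp; omega
      have hmem2 : d ∈ ((range (d + 1)).erase i).erase 0 := by simp; omega
      rw [← mul_prod_erase _ _ hmem, ← mul_prod_erase _ (fun j => |t i - t j|) hmem,
        ← mul_prod_erase _ _ hmem2, ← mul_prod_erase _ (fun j => |t i - t j|) hmem2]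
      have h4 : ∏ j ∈ (((range (d + 1)).erase i).erase 0).erase d, |((i : ℕ) : ℝ) - j| * m ≤
          ∏ j ∈ (((range (d + 1)).erase i).erase 0).erase d, |t i - t j| := by
        refine prod_le_prod (fun j _ => by positivity) fun j hj => hab j ?_
        simp at hj; omega
      have hP : 0 ≤ ∏ j ∈ (((range (d + 1)).erase i).erase 0).erase d, |((i : ℕ) : ℝ) - j| * m :=
        prod_nonneg fun j _ => by positivity
      have ha0 : |t i - t 0| = t i - t 0 := by
        refine abs_of_nonneg (le_trans ?_ (ht 0 i (by omega) hi))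
        have : (0 : ℝ) ≤ i := by positivity
        simp
        positivity
      have had : |t i - t d| = t d - t i := by
        rw [abs_sub_comm]
        refine abs_of_nonneg (le_trans ?_ (ht i d hi le_rfl))
        have : (i : ℝ) ≤ d := by exact_mod_cast hi
        exact mul_nonneg (by linarith) hm.le
      have hb0 : |((i : ℕ) : ℝ) - (0 : ℕ)| * m = i * m := by simp
      have hbd : |((i : ℕ) : ℝ) - (d : ℕ)| * m = (d - i) * m := by
        have : (i : ℝ) ≤ d := by exact_mod_cast hi
        rw [abs_sub_comm, abs_of_nonneg (by linarith)]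
      rw [ha0, had, hb0, hbd]
      set P := ∏ j ∈ (((range (d + 1)).erase i).erase 0).erase d, |((i : ℕ) : ℝ) - j| * m
      set Q := ∏ j ∈ (((range (d + 1)).erase i).erase 0).erase d, |t i - t j|
      set a := t i - t 0 with ha
      set b := t d - t i with hb
      have hsum : t d - t 0 = a + b := by rw [ha, hb]; ring
      have h5 : (i : ℝ) * m ≤ a := by
        have := ht 0 i (by omega) hi
        simpa using this
      have h6 : ((d : ℝ) - i) * m ≤ b := ht i d hi le_rfl
      have hi0 : (0 : ℝ) < i := by exact_mod_cast h0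
      have hdi : (0 : ℝ) < (d : ℝ) - i := by
        have : (i : ℝ) < d := by exact_mod_cast h1
        linarith
      have hx : 0 < (i : ℝ) * m := by positivity
      have hy : 0 < ((d : ℝ) - i) * m := by positivity
      rw [hsum]
      have h7 : (a + b) * ((i : ℝ) * m * (((d : ℝ) - i) * m)) ≤ d * m * (a * b) := by
        have e1 : (d : ℝ) * m = i * m + (d - i) * m := by ring
        rw [e1]
        generalize (i : ℝ) * m = x at *
        generalize ((d : ℝ) - i) * m = y at *
        have ha' : 0 < a := lt_of_lt_of_le hx h5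
        have hb' : 0 < b := lt_of_lt_of_le hy h6
        nlinarith [mul_le_mul_of_nonneg_right h5 (mul_pos hy hb').le,
          mul_le_mul_of_nonneg_right h6 (mul_pos hx ha').le]
      calc (a + b) * ((i : ℝ) * m * (((d : ℝ) - i) * m * P))
          = ((a + b) * ((i : ℝ) * m * (((d : ℝ) - i) * m))) * P := by ring
        _ ≤ (d * m * (a * b)) * P := by gcongr
        _ ≤ (d * m * (a * b)) * Q := by
            have : 0 ≤ d * m * (a * b) := by
              have ha' : 0 < a := lt_of_lt_of_le hx h5
              have hb' : 0 < b := lt_of_lt_of_le hy h6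
              positivity
            gcongr
        _ = _ := by ring

lemma sum_inv_factorial (d : ℕ) :
    ∑ i ∈ range (d + 1), (1 : ℝ) / (i.factorial * (d - i).factorial) = 2 ^ d / d.factorial := by
  have h := Nat.sum_range_choose d
  have h2 : ((∑ i ∈ range (d + 1), d.choose i : ℕ) : ℝ) = 2 ^ d := by rw [h]; simp
  rw [eq_div_iff (by positivity), ← h2, sum_mul]
  push_cast
  refine sum_congr rfl fun i hi => ?_
  rw [Nat.cast_choose ℝ (by have := mem_range.1 hi; omega)]
  ring

/-- The real case: a polynomial of degree `d` with leading coefficient `a`, closed set of reals with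
distances at least `m₀`, `1 ≤ |a| m₀^(d-1)`. -/
theorem real_card_le (d : ℕ) (hd : 2 ≤ d) (U : Finset ℝ) (F : ℝ[X]) (δ : ℝ)
    (hF : F.natDegree = d) (hc : Closed F δ U) (m₀ : ℝ) (hm₀ : 0 < m₀)
    (hsep : ∀ u ∈ U, ∀ u' ∈ U, u ≠ u' → m₀ ≤ |u - u'|)
    (hlead : 1 ≤ |F.coeff d| * m₀ ^ (d - 1)) (k₀ : ℕ) (hk₀ : 1 ≤ k₀)
    (hsmall : (1 + |δ|) * 2 ^ (d - 1) < k₀ ^ (d - 1) * (d - 1).factorial) : U.card ≤ k₀ * d := by
  classical
  by_contra hcard
  obtain ⟨t, htU, ht, hext⟩ := exists_nodes U m₀ hm₀ hsep d (by omega) k₀ hk₀ (by omega)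
  have hk₀' : (0 : ℝ) < k₀ := by exact_mod_cast hk₀
  have hm : 0 < k₀ * m₀ := by positivity
  have hlead' : (k₀ : ℝ) ^ (d - 1) ≤ |F.coeff d| * (k₀ * m₀) ^ (d - 1) := by
    rw [mul_pow]
    have : (0 : ℝ) < (k₀ : ℝ) ^ (d - 1) := by positivity
    nlinarith
  generalize (k₀ : ℝ) * m₀ = m at *
  have hdist := prod_lower d hd m hm t ht
  set D := t d - t 0 with hDdef
  have hd0 : (0 : ℝ) < d := by positivity
  have hD : 0 < D := by
    have := ht 0 d (by omega) le_rfl
    refine lt_of_lt_of_le ?_ this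
    simp
    positivity
  set c := (1 + δ) * ((t 0 + t d) / 2) with hcdef
  have hval : ∀ u ∈ U, |F.eval u - c| ≤ (1 + |δ|) * (D / 2) := by
    intro u hu
    obtain ⟨p, hp, q, hq, hpq⟩ := hc u hu
    have h1 : |p - (t 0 + t d) / 2| ≤ D / 2 := by
      obtain ⟨h2, h3⟩ := hext p hp
      rw [abs_le]; constructor <;> (rw [hDdef]; linarith)
    have h1' : |q - (t 0 + t d) / 2| ≤ D / 2 := by
      obtain ⟨h2, h3⟩ := hext q hq
      rw [abs_le]; constructor <;> (rw [hDdef]; linarith)
    rw [← hpq, hcdef]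
    have : p + δ * q - (1 + δ) * ((t 0 + t d) / 2) =
        (p - (t 0 + t d) / 2) + δ * (q - (t 0 + t d) / 2) := by ring
    rw [this]
    calc _ ≤ |p - (t 0 + t d) / 2| + |δ * (q - (t 0 + t d) / 2)| := abs_add_le _ _
      _ ≤ D / 2 + |δ| * (D / 2) := by
          rw [abs_mul]
          gcongr
      _ = _ := by ring
  have hinj : Set.InjOn t (range (d + 1) : Finset ℕ) := by
    intro i hi j hj hij
    simp only [coe_range, Set.mem_Iio] at hi hj
    by_contra hne
    rcases lt_or_gt_of_ne hne with h | h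
    · have h1 := ht i j h.le (by omega)
      have h2 : (0 : ℝ) < (j : ℝ) - i := by
        have : (i : ℝ) < j := by exact_mod_cast h
        linarith
      have := mul_pos h2 hm
      linarith
    · have h1 := ht j i h.le (by omega)
      have h2 : (0 : ℝ) < (i : ℝ) - j := by
        have : (j : ℝ) < i := by exact_mod_cast h
        linarith
      have := mul_pos h2 hm
      linarith
  set P := F - C c with hP
  have hPc : P.coeff d = F.coeff d := by
    rw [hP, coeff_sub, coeff_C, if_neg (by omega), sub_zero]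
  have hPdeg : P.degree < ((range (d + 1)).card : WithBot ℕ) := by
    rw [card_range]
    refine lt_of_le_of_lt (degree_sub_le _ _) ?_
    refine max_lt ?_ ?_
    · refine lt_of_le_of_lt degree_le_natDegree ?_
      rw [hF]
      exact_mod_cast Nat.lt_succ_self d
    · refine lt_of_le_of_lt degree_C_le ?_
      exact_mod_cast Nat.succ_pos d
  have hL := Lagrange.coeff_eq_sum hinj hPdeg
  rw [card_range, Nat.add_sub_cancel, hPc] at hL
  have hbound : |F.coeff d| ≤ ∑ i ∈ range (d + 1),
      ((1 + |δ|) * (D / 2)) * ((d * m) / (D * m ^ d)) * (1 / (i.factorial * (d - i).factorial)) := by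
    rw [hL]
    refine (abs_sum_le_sum_abs _ _).trans (sum_le_sum fun i hi => ?_)
    have hi' : i ≤ d := by have := mem_range.1 hi; omega
    rw [abs_div, abs_prod]
    have h1 := hdist i hi'
    have h2 : |eval (t i) P| ≤ (1 + |δ|) * (D / 2) := by
      rw [hP, eval_sub, eval_C]
      exact hval _ (htU i hi')
    have hpos : 0 < D * (m ^ d * (i.factorial * (d - i).factorial : ℝ)) := by positivity
    have h3 : D * (m ^ d * (i.factorial * (d - i).factorial : ℝ)) / (d * m) ≤
        ∏ j ∈ (range (d + 1)).erase i, |t i - t j| := by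
      rw [div_le_iff₀ (by positivity)]
      linarith
    calc |eval (t i) P| / ∏ j ∈ (range (d + 1)).erase i, |t i - t j|
        ≤ ((1 + |δ|) * (D / 2)) / (D * (m ^ d * (i.factorial * (d - i).factorial : ℝ)) / (d * m)) := by
          gcongr
      _ = _ := by field_simp
  rw [← mul_sum, sum_inv_factorial] at hbound
  have hfac : (d.factorial : ℝ) = d * (d - 1).factorial := by
    rw [← Nat.mul_factorial_pred (by omega)]
    push_cast
    rfl
  have hpow : m ^ d = m * m ^ (d - 1) := by
    rw [← pow_succ']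
    congr 1
    omega
  have hpow2 : (2 : ℝ) ^ d = 2 * 2 ^ (d - 1) := by
    rw [← pow_succ']
    congr 1
    omega
  have hfin : |F.coeff d| ≤ (1 + |δ|) * 2 ^ (d - 1) / ((d - 1).factorial * m ^ (d - 1)) := by
    refine hbound.trans (le_of_eq ?_)
    rw [hfac, hpow, hpow2]
    have : (0 : ℝ) < (d - 1).factorial := by positivity
    field_simp
  have hmm : 0 < m ^ (d - 1) := by positivity
  have hff : (0 : ℝ) < (d - 1).factorial := by positivity
  have : |F.coeff d| * m ^ (d - 1) ≤ (1 + |δ|) * 2 ^ (d - 1) / (d - 1).factorial := by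
    calc |F.coeff d| * m ^ (d - 1) ≤
        (1 + |δ|) * 2 ^ (d - 1) / ((d - 1).factorial * m ^ (d - 1)) * m ^ (d - 1) := by gcongr
      _ = _ := by field_simp
  have h2 : (1 + |δ|) * 2 ^ (d - 1) / (d - 1).factorial < k₀ ^ (d - 1) := by
    rw [div_lt_iff₀ hff]
    exact hsmall
  linarith

end Pool.Agent.TH737.HEN
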